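import Pool.Agent.W74.VD.GL
import Pool.Agent.W469.CV.REL

/-!
# Primes of `ℚ(x)` near the zeros of `F`, from common roots modulo `p`
-/

set_option autoImplicit false

namespace Pool.Agent.Helper19K9.Ld

open Polynomial IntermediateField IsDedekindDomain NumberField
open Pool.Agent.H813R3.Voj (value)
open Pool.Agent.W223.VD (cnt)
open Pool.Agent.W223.CV (lin)
open Pool.Agent.W469.CV.REL (cnt_eq fin_cnd Cnd)

section val

variable {k : Type} [Field k] [NumberField k] (v : HeightOneSpectrum (𝓞 k))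

theorem val_int_le (n : ℤ) : v.valuation k (n : k) ≤ 1 := by
  have h : v.valuation k (algebraMap (𝓞 k) k (n : 𝓞 k)) ≤ 1 := v.valuation_le_one _
  rwa [map_intCast] at h

theorem val_int_lt (n : ℤ) : v.valuation k (n : k) < 1 ↔ (n : 𝓞 k) ∈ v.asIdeal := by
  have h : v.valuation k (algebraMap (𝓞 k) k (n : 𝓞 k)) < 1 ↔ (n : 𝓞 k) ∈ v.asIdeal :=
    v.valuation_lt_one_iff_mem _
  rwa [map_intCast] at h

theorem val_poly_le (x : k) (hx : v.valuation k x ≤ 1) (g : ℤ[X]) :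
    v.valuation k (aeval x g) ≤ 1 := by
  rw [aeval_eq_sum_range]
  refine Valuation.map_sum_le _ fun i _ => ?_
  rw [zsmul_eq_mul, map_mul, map_pow]
  exact mul_le_one' (val_int_le v _) (pow_le_one' hx i)

theorem val_poly_lt (x : k) (hx : v.valuation k x ≤ 1) (t : ℤ)
    (hxt : v.valuation k (x - (t : k)) < 1) (g : ℤ[X]) (ht : v.valuation k ((g.eval t : ℤ) : k) < 1) :
    v.valuation k (aeval x g) < 1 := by
  -- `g(X) - g(t) = (X - t) q(X)`
  obtain ⟨q, hq⟩ : (X - C t) ∣ g - C (g.eval t) := by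
    rw [dvd_iff_isRoot]
    simp
  have h1 : aeval x g = (x - (t : k)) * aeval x q + ((g.eval t : ℤ) : k) := by
    have h2 := congrArg (aeval x) hq
    rw [map_sub, map_mul, map_sub, aeval_X, aeval_C, aeval_C] at h2
    simp only [algebraMap_int_eq, eq_intCast] at h2
    linear_combination h2
  rw [h1]
  refine (Valuation.map_add_lt _ ?_ ht)
  rw [map_mul]
  exact mul_lt_one_of_lt_of_le hxt (val_poly_le v x hx q)

theorem coprime_mem {m n : ℤ} (h : IsCoprime m n) (hm : (m : 𝓞 k) ∈ v.asIdeal)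
    (hn : (n : 𝓞 k) ∈ v.asIdeal) : False := by
  obtain ⟨a, b, hab⟩ := h
  have h1 : ((a * m + b * n : ℤ) : 𝓞 k) ∈ v.asIdeal := by
    push_cast
    exact v.asIdeal.add_mem (v.asIdeal.mul_mem_left _ hm) (v.asIdeal.mul_mem_left _ hn)
  rw [hab, Int.cast_one] at h1
  exact v.isPrime.ne_top ((Ideal.eq_top_iff_one _).2 h1)

theorem prime_eq {p q : ℕ} (hp : p.Prime) (hq : q.Prime) (h1 : (p : 𝓞 k) ∈ v.asIdeal)
    (h2 : (q : 𝓞 k) ∈ v.asIdeal) : p = q := by
  by_contra hne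
  have h3 : IsCoprime (p : ℤ) (q : ℤ) := Nat.isCoprime_iff_coprime.2 ((Nat.coprime_primes hp hq).2 hne)
  exact coprime_mem v h3 (by exact_mod_cast h1) (by exact_mod_cast h2)

theorem dvd_of_mem {p : ℕ} (hp : p.Prime) {R : ℤ} (h1 : (p : 𝓞 k) ∈ v.asIdeal)
    (h2 : (R : 𝓞 k) ∈ v.asIdeal) : (p : ℤ) ∣ R := by
  by_contra hne
  have h3 : IsCoprime (p : ℤ) R := (Nat.prime_iff_prime_int.1 hp).coprime_iff_not_dvd.2 hne
  exact coprime_mem v h3 (by exact_mod_cast h1) h2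

theorem le_absNorm {p : ℕ} (hp : p.Prime) (h : (p : 𝓞 k) ∈ v.asIdeal) :
    p ≤ Ideal.absNorm v.asIdeal := by
  have h1 : Ideal.absNorm v.asIdeal ∣ p ^ Module.finrank ℤ (𝓞 k) := by
    rw [← Ideal.absNorm_span_natCast]
    exact Ideal.absNorm_dvd_absNorm_of_le ((Ideal.span_singleton_le_iff_mem _).2 h)
  obtain ⟨m, -, hm⟩ := (Nat.dvd_prime_pow hp).1 h1
  have h2 : m ≠ 0 := by
    rintro rfl
    rw [pow_zero, Ideal.absNorm_eq_one_iff] at hm
    exact v.isPrime.ne_top hm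
  rw [hm]
  calc p = p ^ 1 := (pow_one p).symm
    _ ≤ p ^ m := Nat.pow_le_pow_right hp.pos (Nat.one_le_iff_ne_zero.2 h2)

end val

/-- a prime of `ℚ(x)` near the zeros of `F` -/
theorem near_exists (k : Type) [Field k] [NumberField k] (x : k) (f : ℤ[X]) (hgen : ℚ⟮x⟯ = ⊤)
    (hf : Irreducible f) (hd : f.natDegree = Module.finrank ℚ k) (hx : aeval x f = 0) {p : ℕ}
    (hp : p.Prime) (t : ℤ) (hft : (p : ℤ) ∣ f.eval t) :
    ∃ v : HeightOneSpectrum (𝓞 k), (p : 𝓞 k) ∈ v.asIdeal ∧ v.valuation k x ≤ 1 ∧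
      ∀ F : ℤ[X], (p : ℤ) ∣ F.eval t → v.valuation k (aeval x F) < 1 := by
  have hval : value f (t, 1) = f.eval t := by
    unfold value
    rw [eval_eq_sum_range]
    simp
  obtain ⟨v, hv1, hv2⟩ := Pool.Agent.W74.VD.GL.t k x f (t, 1) p hgen hf hd hx isCoprime_one_right hp
    (by rw [hval]; exact hft)
  simp only [Int.cast_one, mul_one] at hv2
  have hx1 : v.valuation k x ≤ 1 := by
    by_contra hcon
    rw [not_le] at hcon
    have h1 : v.valuation k (t : k) < v.valuation k x := (val_int_le v t).trans_lt hcon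
    have h2 : v.valuation k ((t : k) - x) = v.valuation k x := by
      rw [Valuation.map_sub_eq_of_lt_right _ h1]
    rw [h2, max_eq_left hcon.le] at hv2
    exact lt_irrefl _ hv2
  rw [max_eq_right hx1] at hv2
  refine ⟨v, hv1, hx1, fun F hF => ?_⟩
  refine val_poly_lt v x hx1 t ?_ F ?_
  · rw [Valuation.map_sub_swap]
    exact hv2
  · rw [val_int_lt]
    obtain ⟨c, hc⟩ := hF
    rw [hc]
    push_cast
    exact v.asIdeal.mul_mem_right _ hv1

/-- **Lower bound for the counting function.** -/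
theorem cnt_lower {q : ℕ} (F : Fin q → ℤ[X]) (S₀ S' : Finset ℕ)
    (hbez : ∀ i j, i ≠ j → ∃ (U V : ℤ[X]) (R : ℤ), U * F i + V * F j = C R ∧
      ∀ p : ℕ, p.Prime → (p : ℤ) ∣ R → p ∈ S₀)
    (hS'p : ∀ p ∈ S', p.Prime)
    (k : Type) [Field k] [NumberField k] (x : k) (f : ℤ[X]) (hgen : ℚ⟮x⟯ = ⊤)
    (hf : Irreducible f) (hd : f.natDegree = Module.finrank ℚ k) (hx : aeval x f = 0)
    (hFx : ∀ j, aeval x (F j) ≠ 0) (T : Fin q → Finset ℕ)
    (hT : ∀ j, ∀ p ∈ T j, p.Prime ∧ p ∉ S₀ ∧ ∃ t : ℤ, (p : ℤ) ∣ (F j).eval t ∧ (p : ℤ) ∣ f.eval t) :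
    ∑ j, ∑ p ∈ T j, Real.log p ≤
      cnt S' (fun _ : Fin 1 => ((0 : ℤ), (1 : ℤ))) (aeval x (∏ j, F j)) +
        q * ∑ p ∈ S', Real.log p := by
  classical
  set y := aeval x (∏ j, F j) with hy
  have hy0 : y ≠ 0 := by
    rw [hy, map_prod]
    exact Finset.prod_ne_zero_iff.2 fun j _ => hFx j
  have hlin : ∀ j : Fin 1, lin ((fun _ : Fin 1 => ((0 : ℤ), (1 : ℤ))) j) y ≠ 0 := by
    intro j
    unfold lin
    simp only [Int.cast_zero, Int.cast_one, mul_one, zero_sub]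
    exact neg_ne_zero.2 hy0
  set V := (fin_cnd S' _ y hlin).toFinset with hV
  have hcnt := cnt_eq S' _ y hlin
  rw [← hV] at hcnt
  rw [hcnt]
  have hlogp : ∀ j, ∀ p ∈ T j, 0 ≤ Real.log (p : ℝ) := fun j p _ => Real.log_natCast_nonneg p
  -- the two parts
  have hsplit : ∀ j, ∑ p ∈ T j, Real.log (p : ℝ) ≤
      ∑ p ∈ T j \ S', Real.log (p : ℝ) + ∑ p ∈ S', Real.log (p : ℝ) := by
    intro j
    have h3 : ∑ p ∈ T j, Real.log (p : ℝ) = ∑ p ∈ T j \ S', Real.log (p : ℝ) +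
        ∑ p ∈ T j ∩ S', Real.log (p : ℝ) := by
      rw [← Finset.sum_union (Finset.disjoint_sdiff_inter _ _), Finset.sdiff_union_inter]
    have h4 : ∑ p ∈ T j ∩ S', Real.log (p : ℝ) ≤ ∑ p ∈ S', Real.log (p : ℝ) :=
      Finset.sum_le_sum_of_subset_of_nonneg Finset.inter_subset_right
        fun p _ _ => Real.log_natCast_nonneg p
    linarith
  have h1 : ∑ j, ∑ p ∈ T j, Real.log (p : ℝ) ≤
      ∑ j, ∑ p ∈ T j \ S', Real.log (p : ℝ) + q * ∑ p ∈ S', Real.log (p : ℝ) := by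
    calc ∑ j, ∑ p ∈ T j, Real.log (p : ℝ) ≤ ∑ j : Fin q, (∑ p ∈ T j \ S', Real.log (p : ℝ) +
          ∑ p ∈ S', Real.log (p : ℝ)) := Finset.sum_le_sum fun j _ => hsplit j
      _ = _ := by
          rw [Finset.sum_add_distrib, Finset.sum_const, Finset.card_univ, Fintype.card_fin,
            nsmul_eq_mul]
  refine h1.trans (add_le_add_left ?_ _)
  have h2 : ∑ j, ∑ p ∈ T j \ S', Real.log (p : ℝ) =
      ∑ a ∈ Finset.univ.sigma (fun j => T j \ S'), Real.log (a.2 : ℝ) := by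
    rw [Finset.sum_sigma]
  rw [h2]
  set P := Finset.univ.sigma (fun j => T j \ S') with hP
  have hex : ∀ a ∈ P, ∃ v : HeightOneSpectrum (𝓞 k), (a.2 : 𝓞 k) ∈ v.asIdeal ∧
      v.valuation k x ≤ 1 ∧ v.valuation k (aeval x (F a.1)) < 1 := by
    intro a ha
    rw [hP, Finset.mem_sigma, Finset.mem_sdiff] at ha
    obtain ⟨h3, h4, t, h5, h6⟩ := hT a.1 a.2 ha.2.1
    obtain ⟨v, hv1, hv2, hv3⟩ := near_exists k x f hgen hf hd hx h3 t h6
    exact ⟨v, hv1, hv2, hv3 _ h5⟩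
  rcases P.eq_empty_or_nonempty with hPe | ⟨a₀, ha₀⟩
  · rw [hPe, Finset.sum_empty]
    exact Finset.sum_nonneg fun v _ => Real.log_natCast_nonneg _
  obtain ⟨v₀, -⟩ := hex a₀ ha₀
  have : Nonempty (HeightOneSpectrum (𝓞 k)) := ⟨v₀⟩
  choose! g hg using hex
  have hPm : ∀ a ∈ P, a.2.Prime ∧ a.2 ∉ S₀ ∧ a.2 ∉ S' := by
    intro a ha
    rw [hP, Finset.mem_sigma, Finset.mem_sdiff] at ha
    obtain ⟨h3, h4, -⟩ := hT a.1 a.2 ha.2.1
    exact ⟨h3, h4, ha.2.2⟩
  have hinj : Set.InjOn g P := by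
    rintro ⟨i, p⟩ ha ⟨j, p'⟩ hb hab
    rw [Finset.mem_coe] at ha hb
    obtain ⟨a1, a2, a3⟩ := hg _ ha
    obtain ⟨b1, b2, b3⟩ := hg _ hb
    rw [← hab] at b1 b2 b3
    have hpp : p = p' := prime_eq _ (hPm _ ha).1 (hPm _ hb).1 a1 b1
    subst hpp
    by_cases hij : i = j
    · subst hij
      rfl
    · exfalso
      obtain ⟨U, W, R, hUW, hR⟩ := hbez i j hij
      apply (hPm _ ha).2.1
      refine hR p (hPm _ ha).1 ?_
      refine dvd_of_mem (g ⟨i, p⟩) (hPm _ ha).1 a1 ?_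
      rw [← val_int_lt]
      have h3 := congrArg (aeval x) hUW
      rw [map_add, map_mul, map_mul, aeval_C] at h3
      simp only [algebraMap_int_eq, eq_intCast] at h3
      rw [← h3]
      refine Valuation.map_add_lt _ ?_ ?_
      · rw [map_mul, mul_comm]
        exact mul_lt_one_of_lt_of_le a3 (val_poly_le _ x a2 U)
      · rw [map_mul, mul_comm]
        exact mul_lt_one_of_lt_of_le b3 (val_poly_le _ x a2 W)
  calc ∑ a ∈ P, Real.log (a.2 : ℝ) ≤ ∑ a ∈ P, Real.log (Ideal.absNorm (g a).asIdeal : ℝ) := by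
        refine Finset.sum_le_sum fun a ha => ?_
        refine Real.log_le_log ?_ ?_
        · exact_mod_cast (hPm a ha).1.pos
        · exact_mod_cast le_absNorm (g a) (hPm a ha).1 (hg a ha).1
    _ = ∑ v ∈ P.image g, Real.log (Ideal.absNorm v.asIdeal : ℝ) := by
        rw [Finset.sum_image hinj]
    _ ≤ ∑ v ∈ V, Real.log (Ideal.absNorm v.asIdeal : ℝ) := by
        refine Finset.sum_le_sum_of_subset_of_nonneg ?_ fun v _ _ => Real.log_natCast_nonneg _
        intro v hv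
        obtain ⟨a, ha, rfl⟩ := Finset.mem_image.1 hv
        rw [hV, Set.Finite.mem_toFinset]
        obtain ⟨a1, a2, a3⟩ := hg a ha
        refine ⟨fun p hp hpv => ?_, 0, ?_⟩
        · have := prime_eq _ (hPm a ha).1 (hS'p p hp) a1 hpv
          exact (hPm a ha).2.2 (this ▸ hp)
        · refine lt_of_lt_of_le ?_ (le_max_right _ _)
          unfold lin
          simp only [Int.cast_zero, Int.cast_one, mul_one, zero_sub, Valuation.map_neg]
          rw [hy, map_prod, map_prod, ← Finset.mul_prod_erase Finset.univ _ (Finset.mem_univ a.1)]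
          refine mul_lt_one_of_lt_of_le a3 ?_
          exact Finset.prod_le_one' fun j _ => val_poly_le _ x a2 (F j)

end Pool.Agent.Helper19K9.Ld
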