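import Pool.Agent.Helper19K9.Ld.Nb
import Pool.Agent.Helper19K9.Ld.Near
import Pool.Agent.W223.AC.KeyG
import Pool.Agent.W223.AC.Split
import Pool.Agent.W597.AC.LOC
import Pool.Agent.W803.AC.SUMN

/-!
# From the counting function of the branch points to the inequality on curves
-/

set_option autoImplicit false

namespace Pool.Agent.Helper19K9.Ld

open Polynomial IsDedekindDomain NumberField
open Pool.Agent.W223.AC
open Pool.Agent.W223.VD (cnt)
open Pool.Agent.W223.CV (cc cc_mono cc_exists lin)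

theorem phi_psi' {A : Type} [CommRing A] [Algebra ℚ[X] A] {L : Type} [Field L] [NumberField L]
    (φ : A →+* L) (F : ℤ[X]) : φ (psi A F) = aeval (φ (tt A)) F := by
  have h1 := Pool.Agent.W410.AC.phi_psi φ F F.natDegree le_rfl
  rw [h1, aeval_eq_sum_range]
  refine Finset.sum_congr rfl fun j _ => ?_
  rw [zsmul_eq_mul]

/-- at a prime at which the leading coefficient is a unit, large arguments have large values -/
theorem val_large {L : Type} [Field L] [NumberField L] (v : HeightOneSpectrum (𝓞 L)) (F : ℤ[X])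
    (ha : (F.leadingCoeff : 𝓞 L) ∉ v.asIdeal) (ξ : L) (hξ : 1 < v.valuation L ξ) :
    1 ≤ v.valuation L (aeval ξ F) := by
  have hlc : v.valuation L ((F.leadingCoeff : ℤ) : L) = 1 := by
    refine le_antisymm (val_int_le v _) ?_
    rw [← not_lt, val_int_lt]
    exact ha
  rw [aeval_eq_sum_range, Finset.sum_range_succ]
  set n := F.natDegree with hn
  have h1 : v.valuation L (F.coeff n • ξ ^ n) = v.valuation L ξ ^ n := by
    rw [zsmul_eq_mul, map_mul, map_pow]
    have : v.valuation L ((F.coeff n : ℤ) : L) = 1 := hlc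
    rw [this, one_mul]
  have hpos : 0 < v.valuation L ξ := zero_lt_one.trans hξ
  rcases Nat.eq_zero_or_pos n with h0 | h0
  · rw [h0] at h1 ⊢
    rw [Finset.sum_range_zero, zero_add, h1, pow_zero]
  have h2 : v.valuation L (∑ i ∈ Finset.range n, F.coeff i • ξ ^ i) < v.valuation L ξ ^ n := by
    refine Valuation.map_sum_lt _ (pow_pos hpos n).ne' fun i hi => ?_
    rw [Finset.mem_range] at hi
    rw [zsmul_eq_mul, map_mul, map_pow]
    calc v.valuation L ((F.coeff i : ℤ) : L) * v.valuation L ξ ^ i ≤ 1 * v.valuation L ξ ^ i :=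
          mul_le_mul_left (val_int_le v _) _
      _ = v.valuation L ξ ^ i := one_mul _
      _ < v.valuation L ξ ^ n := pow_lt_pow_right₀ hξ hi
  rw [← h1] at h2
  rw [Valuation.map_add_eq_of_lt_right _ h2, h1]
  exact one_le_pow₀ hξ.le

/-- **From the counting function of the branch points to the inequality on curves.** -/
theorem curve (A : Type) [CommRing A] [IsDedekindDomain A] [Algebra ℚ A] [Algebra ℚ[X] A]
    [IsScalarTower ℚ ℚ[X] A] [Module.Finite ℚ[X] A] [FaithfulSMul ℚ[X] A]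
    {q : ℕ} (F : Fin q → ℤ[X]) (hF1 : ∀ j, 1 ≤ (F j).natDegree) (u : Fin q → ℕ)
    (y : ∀ j, Fin (u j + 1) → A) (hy0 : ∀ j, y j 0 = psi A (F j))
    (hyr : ∀ j i, y j i ∈ (Ideal.span {psi A (F j)}).radical) {ε : ℝ} (hε : 0 < ε) :
    ∃ (S₁ : Finset ℕ) (C : ℝ), (∀ p ∈ S₁, p.Prime) ∧ 0 ≤ C ∧
      ∀ (k L : Type) [Field k] [NumberField k] [Field L] [NumberField L] [Algebra k L]
        (φ : A →+* L) (x : k), φ (tt A) = algebraMap k L x → (∀ j, aeval x (F j) ≠ 0) →
        ∀ S : Finset ℕ, (∀ p ∈ S, p.Prime) →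
        (∑ j, (∑ w : InfinitePlace L, (w.mult : ℝ) * lamI (y j) φ w + mS S (y j) φ)) /
            Module.finrank ℚ L +
          (Real.log |(discr k : ℝ)| + cnt S₁ (fun _ : Fin 1 => ((0 : ℤ), (1 : ℤ)))
            (aeval x (∏ j, F j))) / Module.finrank ℚ k ≤
        Real.log |(discr L : ℝ)| / Module.finrank ℚ L +
          ((∑ j, (Module.finrank ℚ (A ⧸ Ideal.span (Set.range (y j))) : ℝ)) /
            Module.finrank ℚ[X] A + ε) * (Real.log (Height.mulHeight₁ x) / Module.finrank ℚ k) +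
          ∑ p ∈ S, Real.log p + C := by
  classical
  have hlam := fun j => lam_le A (F j) (hF1 j) (u j) (y j) (hy0 j) (ε := ε / (q + 1)) (by positivity)
  choose C₁ hC₁ hlam using hlam
  have hNE := fun j => nearN Pool.Agent.W989.AC.MULT.t Pool.Agent.W597.AC.t A (psi A (F j)) 1
    (fun _ => u j) (fun _ => y j) Finset.univ (by
      rw [Finset.prod_const, Finset.card_univ, Fintype.card_fin, pow_one, Ideal.span_le]
      rintro _ ⟨i, rfl⟩
      exact hyr j i)
  choose M₂ hM₂ hNE using hNE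
  have hlc0 : ∀ j, (F j).leadingCoeff ≠ 0 := by
    intro j h
    rw [leadingCoeff_eq_zero] at h
    have := hF1 j
    rw [h, natDegree_zero] at this
    omega
  obtain ⟨M, hM⟩ : ∃ M : ℕ, M = ∏ j, (M₂ j * (F j).leadingCoeff.natAbs) := ⟨_, rfl⟩
  have hM0 : M ≠ 0 := by
    rw [hM]
    exact Finset.prod_ne_zero_iff.2 fun j _ => mul_ne_zero (hM₂ j) (Int.natAbs_ne_zero.2 (hlc0 j))
  refine ⟨M.primeFactors, ∑ j, C₁ j, fun p hp => Nat.prime_of_mem_primeFactors hp,
    Finset.sum_nonneg fun j _ => hC₁ j, ?_⟩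
  intro k L _ _ _ _ _ φ x hφ hx S hS
  set ξ : L := φ (tt A) with hξ
  have hFξ : ∀ j, aeval ξ (F j) = algebraMap k L (aeval x (F j)) := by
    intro j
    rw [hφ, aeval_algebraMap_apply]
  have hFξ0 : ∀ j, aeval ξ (F j) ≠ 0 := by
    intro j
    rw [hFξ, _root_.map_ne_zero]
    exact hx j
  have hz0 : ∀ j, φ (y j 0) ≠ 0 := by
    intro j
    rw [hy0, phi_psi']
    exact hFξ0 j
  have hnf : ∀ l, {v : HeightOneSpectrum (𝓞 L) | NearP (y l) φ v}.Finite :=
    fun l => near_finite (y l) φ (hz0 l)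
  have hnfU : {v : HeightOneSpectrum (𝓞 L) | ∃ l ∈ (Finset.univ : Finset (Fin q)),
      NearP (y l) φ v}.Finite := by
    refine (Set.finite_iUnion fun l => hnf l).subset ?_
    rintro v ⟨l, -, hv⟩
    exact Set.mem_iUnion.mpr ⟨l, hv⟩
  -- the counting function over `L`
  have hk1 : cnt M.primeFactors (fun _ : Fin 1 => ((0 : ℤ), (1 : ℤ))) (aeval ξ (∏ j, F j)) ≤
      cc ∅ (fun v : HeightOneSpectrum (𝓞 L) => ∃ l ∈ (Finset.univ : Finset (Fin q)),
        NearP (y l) φ v) := by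
    rw [Pool.Agent.W223.CV.cnt_eq]
    refine cc_mono (Finset.empty_subset _) hnfU ?_
    rintro v hv ⟨j₀, -, hn⟩
    have hn' : v.valuation L (aeval ξ (∏ j, F j)) < 1 := by
      by_contra hcon
      rw [not_lt] at hcon
      unfold Pool.Agent.W223.CV.Near lin at hn
      simp only [Int.cast_zero, Int.cast_one, mul_one, zero_sub, Valuation.map_neg] at hn
      rw [max_eq_left hcon] at hn
      exact lt_irrefl _ hn
    have hMv : (M : 𝓞 L) ∉ v.asIdeal := not_mem_of_primes hM0 hv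
    have hlcv : ∀ j, ((F j).leadingCoeff : 𝓞 L) ∉ v.asIdeal := by
      intro j h
      apply hMv
      have h1 : (((F j).leadingCoeff.natAbs : ℕ) : 𝓞 L) ∈ v.asIdeal := by
        rcases Int.natAbs_eq (F j).leadingCoeff with h2 | h2
        · rw [h2, Int.cast_natCast] at h
          exact h
        · rw [h2, Int.cast_neg, Int.cast_natCast] at h
          have := neg_mem h
          rw [neg_neg] at this
          exact this
      obtain ⟨c, hc⟩ := Finset.dvd_prod_of_mem (fun j => M₂ j * (F j).leadingCoeff.natAbs)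
        (Finset.mem_univ j)
      rw [hM, hc]
      push_cast
      push_cast at h1
      exact Ideal.mul_mem_right _ _ (Ideal.mul_mem_left _ _ h1)
    have hM2v : ∀ j, ((M₂ j : ℕ) : 𝓞 L) ∉ v.asIdeal := by
      intro j h
      apply hMv
      obtain ⟨c, hc⟩ := Finset.dvd_prod_of_mem (fun j => M₂ j * (F j).leadingCoeff.natAbs)
        (Finset.mem_univ j)
      rw [hM, hc]
      push_cast
      exact Ideal.mul_mem_right _ _ (Ideal.mul_mem_right _ _ h)
    rw [map_prod, map_prod] at hn'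
    have hξ1 : v.valuation L ξ ≤ 1 := by
      by_contra hcon
      rw [not_le] at hcon
      refine absurd hn' (not_lt.2 ?_)
      exact Finset.one_le_prod' fun j _ => val_large v (F j) (hlcv j) ξ hcon
    obtain ⟨j, hj⟩ : ∃ j, v.valuation L (aeval ξ (F j)) < 1 := by
      by_contra hcon
      push Not at hcon
      exact absurd hn' (not_lt.2 (Finset.one_le_prod' fun j _ => hcon j))
    obtain ⟨l, -, h5⟩ := hNE j L φ v (hM2v j) hξ1 (by rw [phi_psi']; exact hj)
    exact ⟨j, Finset.mem_univ j, hξ1, h5⟩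
  have hk2 := hk1.trans ((cc_outside Pool.Agent.W803.AC.t S hS _ hnfU).trans
    (add_le_add_left (cc_exists S Finset.univ
      (fun l (v : HeightOneSpectrum (𝓞 L)) => NearP (y l) φ v) hnf) _))
  -- base change
  have hlin : ∀ j : Fin 1, lin ((fun _ : Fin 1 => ((0 : ℤ), (1 : ℤ))) j) (aeval x (∏ j, F j)) ≠ 0 := by
    intro j
    unfold lin
    simp only [Int.cast_zero, Int.cast_one, mul_one, zero_sub]
    rw [neg_ne_zero, map_prod]
    exact Finset.prod_ne_zero_iff.2 fun j _ => hx j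
  have hrel := Pool.Agent.W469.CV.REL.t k L 1 M.primeFactors _ (aeval x (∏ j, F j)) hlin
  have hΦ : algebraMap k L (aeval x (∏ j, F j)) = aeval ξ (∏ j, F j) := by
    rw [hφ, aeval_algebraMap_apply]
  rw [hΦ] at hrel
  obtain ⟨d, hd⟩ : ∃ d : ℝ, d = (Module.finrank ℚ k : ℝ) := ⟨_, rfl⟩
  obtain ⟨m, hm⟩ : ∃ m : ℝ, m = (Module.finrank k L : ℝ) := ⟨_, rfl⟩
  have hd0 : 0 < d := by rw [hd]; exact_mod_cast Module.finrank_pos
  have hm0 : 0 < m := by rw [hm]; exact_mod_cast Module.finrank_pos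
  have htow : (Module.finrank ℚ L : ℝ) = d * m := by
    rw [hd, hm]
    exact_mod_cast (Module.finrank_mul_finrank ℚ k L).symm
  obtain ⟨H, hH⟩ : ∃ H : ℝ, H = Real.log (Height.mulHeight₁ x) := ⟨_, rfl⟩
  have hH0 : 0 ≤ H := by
    rw [hH, ← Height.logHeight₁_eq_log_mulHeight₁]
    exact Height.zero_le_logHeight₁ x
  have hHξ : Real.log (Height.mulHeight₁ ξ) = m * H := by
    rw [hφ, Pool.Agent.W223.AC.MK.log_height_ext L x, ← hm, ← hH]
  obtain ⟨μ, hμ⟩ : ∃ μ : ℝ, μ = (∑ j, (Module.finrank ℚ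
    (A ⧸ Ideal.span (Set.range (y j))) : ℝ)) / Module.finrank ℚ[X] A := ⟨_, rfl⟩
  have hdm : 0 < d * m := mul_pos hd0 hm0
  obtain ⟨W, hW⟩ : ∃ W : ℝ, W = ∑ j, (∑ w : InfinitePlace L, (w.mult : ℝ) *
      lamI (y j) φ w + mS S (y j) φ) := ⟨_, rfl⟩
  obtain ⟨R, hR⟩ : ∃ R : ℝ, R = ∑ p ∈ S, Real.log p := ⟨_, rfl⟩
  -- the sum over the fibres
  have h5 : ∀ l, cc S (fun v : HeightOneSpectrum (𝓞 L) => NearP (y l) φ v) +
      (∑ w : InfinitePlace L, (w.mult : ℝ) * lamI (y l) φ w + mS S (y l) φ) ≤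
      ((Module.finrank ℚ (A ⧸ Ideal.span (Set.range (y l))) : ℝ) /
          Module.finrank ℚ[X] A + ε / (q + 1)) * (m * H) + d * m * C₁ l := by
    intro l
    obtain ⟨h6, h7⟩ := hlam l L φ (hz0 l)
    have h8 := split_prox (y l) φ S (hz0 l) h6
    rw [← hξ, hHξ, htow] at h7
    linarith
  have h6 := Finset.sum_le_sum fun l (_ : l ∈ Finset.univ) => h5 l
  rw [Finset.sum_add_distrib, ← hW] at h6
  have h7 : ∑ l, (((Module.finrank ℚ (A ⧸ Ideal.span (Set.range (y l))) : ℝ) /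
          Module.finrank ℚ[X] A + ε / (q + 1)) * (m * H) + d * m * C₁ l) ≤
      (μ + ε) * (m * H) + d * m * ∑ j, C₁ j := by
    rw [Finset.sum_add_distrib, ← Finset.sum_mul, Finset.sum_add_distrib, ← Finset.sum_div,
      Finset.sum_const, Finset.card_univ, Fintype.card_fin, nsmul_eq_mul, ← hμ, Finset.mul_sum]
    have h8 : (q : ℝ) * (ε / (q + 1)) ≤ ε := by
      rw [mul_div_assoc', div_le_iff₀ (by positivity)]
      nlinarith
    have h9 : 0 ≤ m * H := by positivity
    have h10 := mul_le_mul_of_nonneg_right (add_le_add_right h8 μ) h9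
    linarith
  rw [← hW, htow, ← hR, ← hd, ← hH, ← hμ]
  rw [← hm] at hrel
  rw [htow, ← hR] at hk2
  obtain ⟨N₁, hN₁⟩ : ∃ N₁ : ℝ, N₁ = cnt M.primeFactors (fun _ : Fin 1 => ((0 : ℤ), (1 : ℤ)))
    (aeval x (∏ j, F j)) := ⟨_, rfl⟩
  rw [← hN₁] at hrel ⊢
  -- `W + m (log disc k + N₁) ≤ log disc L + (μ + ε) m H + d m (R + C)`
  have h11 : W + m * (Real.log |(discr k : ℝ)| + N₁) ≤ Real.log |(discr L : ℝ)| +
      (μ + ε) * (m * H) + d * m * R + d * m * ∑ j, C₁ j := by linarith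
  have h12 := div_le_div_of_nonneg_right h11 hdm.le
  have e1 : (W + m * (Real.log |(discr k : ℝ)| + N₁)) / (d * m) =
      W / (d * m) + (Real.log |(discr k : ℝ)| + N₁) / d := by
    field_simp
  have e2 : (Real.log |(discr L : ℝ)| + (μ + ε) * (m * H) + d * m * R + d * m * ∑ j, C₁ j) / (d * m) =
      Real.log |(discr L : ℝ)| / (d * m) + (μ + ε) * (H / d) + R + ∑ j, C₁ j := by
    field_simp
  rw [e1, e2] at h12
  exact h12

end Pool.Agent.Helper19K9.Ld
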