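import Pool.Agent.Helper19K9.Ld.Fld
import Pool.Agent.Helper19K9.Ld.Cv
import Pool.Agent.W469.CV.MH

/-!
# The exceptional set of polynomials
-/

set_option autoImplicit false

namespace Pool.Agent.Helper19K9.Ld

open Polynomial NumberField IntermediateField
open Pool.Agent.W223.VD (cnt)

/-- the largest coefficient of degree at most `r` -/
def box (r : ℕ) (f : ℤ[X]) : ℕ := Finset.univ.sup fun i : Fin (r + 1) => (f.coeff i).natAbs

theorem box_le {r : ℕ} {f : ℤ[X]} {B : ℕ} (h : ∀ i, |f.coeff i| ≤ B) : box r f ≤ B := by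
  refine Finset.sup_le fun i _ => ?_
  have h1 := h i
  rw [Int.abs_eq_natAbs] at h1
  exact_mod_cast h1

theorem coeff_le_box {r : ℕ} (f : ℤ[X]) (i : Fin (r + 1)) : (f.coeff i).natAbs ≤ box r f :=
  Finset.le_sup (f := fun i : Fin (r + 1) => (f.coeff i).natAbs) (Finset.mem_univ i)

theorem mahler_le {r : ℕ} {f : ℤ[X]} (hf : f.natDegree ≤ r) :
    Pool.Agent.H813R3.Voj.mahler f ≤ (r + 1) * box r f := by
  unfold Pool.Agent.H813R3.Voj.mahler
  refine (mahlerMeasure_le_sum_norm_coeff _).trans ?_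
  have hd : (f.map (Int.castRingHom ℂ)).natDegree < r + 1 :=
    Nat.lt_succ_of_le (natDegree_map_le.trans hf)
  rw [sum_over_range' _ (fun _ => norm_zero) (r + 1) hd]
  calc ∑ i ∈ Finset.range (r + 1), ‖(f.map (Int.castRingHom ℂ)).coeff i‖
      ≤ ∑ i ∈ Finset.range (r + 1), (box r f : ℝ) := by
        refine Finset.sum_le_sum fun i hi => ?_
        rw [Finset.mem_range] at hi
        rw [coeff_map, eq_intCast, Complex.norm_intCast]
        have h1 := coeff_le_box (r := r) f ⟨i, hi⟩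
        have h2 : ((f.coeff i).natAbs : ℝ) ≤ (box r f : ℝ) := by exact_mod_cast h1
        rwa [Nat.cast_natAbs, Int.cast_abs] at h2
    _ = _ := by
        rw [Finset.sum_const, Finset.card_range, nsmul_eq_mul]
        push_cast
        ring

theorem exists_field (F : ℤ[X]) (hF : Irreducible (F.map (Int.castRingHom ℚ))) :
    ∃ (K : Type) (_ : Field K) (_ : NumberField K) (θ : K), aeval θ F = 0 ∧
      Module.finrank ℚ K = F.natDegree := by
  set FQ := F.map (Int.castRingHom ℚ) with hFQ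
  have hinj : Function.Injective (Int.castRingHom ℚ) := (Int.castRingHom ℚ).injective_int
  obtain ⟨z, hz⟩ := IsAlgClosed.exists_aeval_eq_zero ℂ FQ hF.degree_pos.ne'
  have hint : IsIntegral ℚ z := (show IsAlgebraic ℚ z from ⟨FQ, hF.ne_zero, hz⟩).isIntegral
  have hfd : FiniteDimensional ℚ ℚ⟮z⟯ := adjoin.finiteDimensional hint
  have hNF : NumberField ℚ⟮z⟯ := { to_charZero := inferInstance, to_finiteDimensional := hfd }
  refine ⟨ℚ⟮z⟯, inferInstance, hNF, AdjoinSimple.gen ℚ z, ?_, ?_⟩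
  · have h9 : (aeval (AdjoinSimple.gen ℚ z) F : ℚ⟮z⟯).1 = 0 := by
      have h1 := aeval_algebraMap_apply ℂ (AdjoinSimple.gen ℚ z) F
      have h10 : algebraMap ℚ⟮z⟯ ℂ (AdjoinSimple.gen ℚ z) = z := rfl
      have h2 : aeval z F = 0 := by
        rw [hFQ, ← algebraMap_int_eq, aeval_map_algebraMap] at hz
        exact hz
      rw [h10, h2] at h1
      exact h1.symm
    exact Subtype.ext h9
  · rw [adjoin.finrank hint]
    have h3 := minpoly.dvd ℚ z hz
    have h5 : Associated (minpoly ℚ z) FQ := (minpoly.irreducible hint).associated_of_dvd hF h3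
    have h6 : (minpoly ℚ z).natDegree = FQ.natDegree :=
      natDegree_eq_of_degree_eq (degree_eq_degree_of_associated h5)
    rw [h6, hFQ, natDegree_map_eq_of_injective hinj]

/-- coprimality over `ℚ`, cleared of denominators -/
theorem bezout (F G : ℤ[X]) (hF : Irreducible (F.map (Int.castRingHom ℚ)))
    (hG : Irreducible (G.map (Int.castRingHom ℚ)))
    (h : ¬ Associated (F.map (Int.castRingHom ℚ)) (G.map (Int.castRingHom ℚ))) :
    ∃ (U V : ℤ[X]) (R : ℤ), R ≠ 0 ∧ U * F + V * G = C R := by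
  have hinj : Function.Injective (Int.castRingHom ℚ) := (Int.castRingHom ℚ).injective_int
  have hcop : IsCoprime (F.map (Int.castRingHom ℚ)) (G.map (Int.castRingHom ℚ)) := by
    rw [hF.coprime_iff_not_dvd]
    intro hd
    exact h (hF.associated_of_dvd hG hd)
  obtain ⟨a, b, hab⟩ := hcop
  obtain ⟨m, hmM, hm⟩ := IsLocalization.integerNormalization_spec (nonZeroDivisors ℤ) a
  obtain ⟨n, hnM, hn⟩ := IsLocalization.integerNormalization_spec (nonZeroDivisors ℤ) b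
  set a' := IsLocalization.integerNormalization (nonZeroDivisors ℤ) a with ha'
  set b' := IsLocalization.integerNormalization (nonZeroDivisors ℤ) b with hb'
  have hm0 : (m : ℤ) ≠ 0 := nonZeroDivisors.ne_zero hmM
  have hn0 : (n : ℤ) ≠ 0 := nonZeroDivisors.ne_zero hnM
  refine ⟨C (n : ℤ) * a', C (m : ℤ) * b', m * n, mul_ne_zero hm0 hn0, ?_⟩
  apply Polynomial.map_injective _ hinj
  rw [← algebraMap_int_eq, Polynomial.map_add, Polynomial.map_mul, Polynomial.map_mul,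
    Polynomial.map_mul, Polynomial.map_mul, hm, hn, Polynomial.map_C, Polynomial.map_C,
    Polynomial.map_C]
  simp only [algebraMap_int_eq, eq_intCast] at hab ⊢
  have e1 : (m : ℤ) • a = C ((m : ℤ) : ℚ) * a := by
    rw [zsmul_eq_mul]; simp
  have e2 : (n : ℤ) • b = C ((n : ℤ) : ℚ) * b := by
    rw [zsmul_eq_mul]; simp
  rw [e1, e2]
  push_cast
  rw [C_mul]
  have hab' : a * F.map (Int.castRingHom ℚ) + b * G.map (Int.castRingHom ℚ) = 1 := hab
  calc _ = C ((m : ℤ) : ℚ) * C ((n : ℤ) : ℚ) *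
        (a * F.map (Int.castRingHom ℚ) + b * G.map (Int.castRingHom ℚ)) := by ring
    _ = _ := by rw [hab', mul_one]

/-- the condition which fails for the exceptional polynomials -/
def Bad {q : ℕ} (F : Fin q → ℤ[X]) (r : ℕ) (S₀ : Finset ℕ) (ε : ℝ) (K : Fin q → Type)
    (i1 : ∀ j, Field (K j)) (i2 : ∀ j, NumberField (K j)) (θ : ∀ j, K j)
    (hθ : ∀ j, aeval (θ j) (F j) = 0) : Set ℤ[X] :=
  {f | ∃ j, ¬ (lam (F j) (θ j) (hθ j) r (fun i => f.coeff i) ≠ 0 ∧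
    (box r f : ℝ) ^ ((Module.finrank ℚ (K j) : ℝ) - ε) ≤
      sqf S₀ (Ideal.absNorm (Ideal.span {lam (F j) (θ j) (hθ j) r (fun i => f.coeff i)})))}

theorem bad_count {q : ℕ} (F : Fin q → ℤ[X]) (hF : ∀ j, Irreducible ((F j).map (Int.castRingHom ℚ)))
    (r : ℕ) (hr : ∀ j, (F j).natDegree < 2 * (r + 1)) (S₀ : Finset ℕ) {ε : ℝ} (hε : 0 < ε)
    (hε1 : ε ≤ 1) (K : Fin q → Type)
    (i1 : ∀ j, Field (K j)) (i2 : ∀ j, NumberField (K j)) (θ : ∀ j, K j)
    (hθ : ∀ j, aeval (θ j) (F j) = 0) (hK : ∀ j, Module.finrank ℚ (K j) = (F j).natDegree) :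
    ∃ c C : ℝ, 0 < c ∧ 0 < C ∧ ∀ B : ℕ, 1 ≤ B → ∀ T : Finset ℤ[X],
      (∀ f ∈ T, f ∈ Bad F r S₀ ε K i1 i2 θ hθ ∧ f.natDegree ≤ r ∧ ∀ i, |f.coeff i| ≤ B) →
      (T.card : ℝ) ≤ C * (B : ℝ) ^ ((r + 1 : ℝ) - c) := by
  classical
  have hn1 : ∀ j, 1 ≤ (F j).natDegree := by
    intro j
    have h1 := (hF j).natDegree_pos
    rwa [natDegree_map_eq_of_injective (Int.castRingHom ℚ).injective_int] at h1
  have hcount : ∀ j, ∃ c C : ℝ, 0 < c ∧ 0 < C ∧ ∀ B : ℕ, 1 ≤ B →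
      ∀ E : Finset (Fin (r + 1) → ℤ),
      (∀ u ∈ E, (∀ i, |u i| ≤ B) ∧ ¬ (lam (F j) (θ j) (hθ j) r u ≠ 0 ∧
        (B : ℝ) ^ ((Module.finrank ℚ (K j) : ℝ) - ε) ≤
          sqf S₀ (Ideal.absNorm (Ideal.span {lam (F j) (θ j) (hθ j) r u})))) →
      (E.card : ℝ) ≤ C * (B : ℝ) ^ ((r + 1 : ℝ) - c) := by
    intro j
    refine count_norm (m := min (F j).natDegree (r + 1)) (min_le_right _ _)
      (ww (F j) (θ j) (hθ j) r) ((F j).leadingCoeff ^ r) (pow_ne_zero _ (lc_ne (hF j)))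
      (ww_zero _ _ _ _) (ww_ind (hF j) (hθ j) (min_le_left _ _)) ?_ S₀ hε hε1
    rw [hK]
    have h0 : (0 : ℝ) < (F j).natDegree := by exact_mod_cast hn1 j
    rw [lt_div_iff₀ h0]
    have h2 := hr j
    have h3 := hn1 j
    have h4 : (F j).natDegree < 2 * min (F j).natDegree (r + 1) := by omega
    have h5 : ((F j).natDegree : ℝ) < 2 * ((min (F j).natDegree (r + 1) : ℕ) : ℝ) := by
      exact_mod_cast h4
    linarith
  choose c C hc hC hcount using hcount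
  obtain ⟨c₀, hc₀⟩ : ∃ c₀ : ℝ, c₀ = (∑ j, (c j)⁻¹ + 1)⁻¹ := ⟨_, rfl⟩
  have hsum : 0 ≤ ∑ j, (c j)⁻¹ := Finset.sum_nonneg fun j _ => (inv_pos.2 (hc j)).le
  have hc₀0 : 0 < c₀ := by rw [hc₀]; positivity
  have hc₀le : ∀ j, c₀ ≤ c j := by
    intro j
    rw [hc₀, inv_le_comm₀ (by positivity) (hc j)]
    have := Finset.single_le_sum (f := fun j => (c j)⁻¹) (fun j _ => (inv_pos.2 (hc j)).le)
      (Finset.mem_univ j)
    linarith
  refine ⟨c₀, ∑ j, C j + 1, hc₀0, ?_, ?_⟩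
  · have : 0 ≤ ∑ j, C j := Finset.sum_nonneg fun j _ => (hC j).le
    linarith
  intro B hB T hT
  have hB1 : (1 : ℝ) ≤ B := by exact_mod_cast hB
  -- the parts
  let G : Fin q → Finset ℤ[X] := fun j => T.filter fun f =>
    ¬ (lam (F j) (θ j) (hθ j) r (fun i => f.coeff i) ≠ 0 ∧
    (box r f : ℝ) ^ ((Module.finrank ℚ (K j) : ℝ) - ε) ≤
      sqf S₀ (Ideal.absNorm (Ideal.span {lam (F j) (θ j) (hθ j) r (fun i => f.coeff i)})))
  have hTG : T ⊆ Finset.univ.biUnion G := by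
    intro f hf
    obtain ⟨j, hj⟩ := (hT f hf).1
    rw [Finset.mem_biUnion]
    exact ⟨j, Finset.mem_univ j, Finset.mem_filter.2 ⟨hf, hj⟩⟩
  have hG : ∀ j, ((G j).card : ℝ) ≤ C j * (B : ℝ) ^ ((r + 1 : ℝ) - c₀) := by
    intro j
    have hinj : Set.InjOn (fun (f : ℤ[X]) (i : Fin (r + 1)) => f.coeff i) (G j) := by
      intro f hf g hg h
      have hf' := (hT f (Finset.mem_filter.1 hf).1).2.1
      have hg' := (hT g (Finset.mem_filter.1 hg).1).2.1
      have h1 := pol_of f hf'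
      have h2 := pol_of g hg'
      have h3 : (fun i : Fin (r + 1) => f.coeff i) = fun i : Fin (r + 1) => g.coeff i := h
      rw [← h1, ← h2, h3]
    have h1 := hcount j B hB ((G j).image fun f i => f.coeff i) (by
      intro u hu
      obtain ⟨f, hf, rfl⟩ := Finset.mem_image.1 hu
      rw [Finset.mem_filter] at hf
      obtain ⟨h2, h3, h4⟩ := hT f hf.1
      refine ⟨fun i => h4 i, ?_⟩
      rintro ⟨h5, h6⟩
      refine hf.2 ⟨h5, le_trans ?_ h6⟩
      have h7 : (box r f : ℝ) ≤ B := by exact_mod_cast box_le h4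
      refine Real.rpow_le_rpow (Nat.cast_nonneg _) h7 ?_
      rw [hK]
      have : (1 : ℝ) ≤ (F j).natDegree := by exact_mod_cast hn1 j
      linarith)
    rw [Finset.card_image_of_injOn hinj] at h1
    refine h1.trans (mul_le_mul_of_nonneg_left ?_ (hC j).le)
    exact Real.rpow_le_rpow_of_exponent_le hB1 (by linarith [hc₀le j])
  have hpos : (0 : ℝ) ≤ (B : ℝ) ^ ((r + 1 : ℝ) - c₀) := Real.rpow_nonneg (Nat.cast_nonneg _) _
  calc (T.card : ℝ) ≤ ((Finset.univ.biUnion G).card : ℝ) := by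
        exact_mod_cast Finset.card_le_card hTG
    _ ≤ ((∑ j, (G j).card : ℕ) : ℝ) := by exact_mod_cast Finset.card_biUnion_le
    _ = ∑ j, ((G j).card : ℝ) := by push_cast; rfl
    _ ≤ ∑ j, C j * (B : ℝ) ^ ((r + 1 : ℝ) - c₀) := Finset.sum_le_sum fun j _ => hG j
    _ = (∑ j, C j) * (B : ℝ) ^ ((r + 1 : ℝ) - c₀) := by rw [Finset.sum_mul]
    _ ≤ _ := mul_le_mul_of_nonneg_right (by linarith) hpos

/-- **The lower bound for the counting function** outside the exceptional set. -/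
theorem good {q : ℕ} (F : Fin q → ℤ[X]) (hF : ∀ j, Irreducible ((F j).map (Int.castRingHom ℚ)))
    (r : ℕ) (hr1 : 1 ≤ r) (S₀ : Finset ℕ)
    (hlc : ∀ j, ∀ p : ℕ, p.Prime → (p : ℤ) ∣ (F j).leadingCoeff → p ∈ S₀)
    (hbez : ∀ i j, i ≠ j → ∃ (U V : ℤ[X]) (R : ℤ), U * F i + V * F j = C R ∧
      ∀ p : ℕ, p.Prime → (p : ℤ) ∣ R → p ∈ S₀)
    {ε : ℝ} (hε : 0 < ε)
    (hε1 : ε ≤ 1) (K : Fin q → Type)
    (i1 : ∀ j, Field (K j)) (i2 : ∀ j, NumberField (K j)) (θ : ∀ j, K j)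
    (hθ : ∀ j, aeval (θ j) (F j) = 0) (hK : ∀ j, Module.finrank ℚ (K j) = (F j).natDegree)
    (S' : Finset ℕ) (hS'p : ∀ p ∈ S', p.Prime)
    (k : Type) [Field k] [NumberField k] (x : k) (f : ℤ[X]) (hgen : ℚ⟮x⟯ = ⊤)
    (hf : Irreducible f) (hd : f.natDegree = Module.finrank ℚ k) (hdr : f.natDegree = r)
    (hx : aeval x f = 0) (hfE : f ∉ Bad F r S₀ ε K i1 i2 θ hθ) :
    (∀ j, aeval x (F j) ≠ 0) ∧
    (∑ j, ((F j).natDegree : ℝ) - q * ε) * Real.log (Height.mulHeight₁ x) ≤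
      cnt S' (fun _ : Fin 1 => ((0 : ℤ), (1 : ℤ))) (aeval x (∏ j, F j)) +
        q * ∑ p ∈ S', Real.log p + (∑ j, ((F j).natDegree : ℝ)) * Real.log (r + 1) := by
  classical
  have hn1 : ∀ j, 1 ≤ (F j).natDegree := by
    intro j
    have h1 := (hF j).natDegree_pos
    rwa [natDegree_map_eq_of_injective (Int.castRingHom ℚ).injective_int] at h1
  have hgd : ∀ j, lam (F j) (θ j) (hθ j) r (fun i => f.coeff i) ≠ 0 ∧
    (box r f : ℝ) ^ ((Module.finrank ℚ (K j) : ℝ) - ε) ≤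
      sqf S₀ (Ideal.absNorm (Ideal.span {lam (F j) (θ j) (hθ j) r (fun i => f.coeff i)})) := by
    intro j
    by_contra hcon
    exact hfE ⟨j, hcon⟩
  have hpol : pol (fun i : Fin (r + 1) => f.coeff i) = f := pol_of f hdr.le
  have hFx : ∀ j, aeval x (F j) ≠ 0 := by
    intro j h
    apply (hgd j).1
    -- `F j` divides `f`
    have hint : IsIntegral ℚ x := Algebra.IsIntegral.isIntegral x
    have h1 : aeval x ((F j).map (Int.castRingHom ℚ)) = 0 := by rw [aeval_mapQ]; exact h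
    have h2 : aeval x (f.map (Int.castRingHom ℚ)) = 0 := by rw [aeval_mapQ]; exact hx
    have h3 := minpoly.dvd ℚ x h1
    have h4 := minpoly.dvd ℚ x h2
    have h5 : Associated (minpoly ℚ x) ((F j).map (Int.castRingHom ℚ)) :=
      (minpoly.irreducible hint).associated_of_dvd (hF j) h3
    have h6 : (F j).map (Int.castRingHom ℚ) ∣ f.map (Int.castRingHom ℚ) := h5.symm.dvd.trans h4
    have h7 : aeval (θ j) f = 0 := by
      obtain ⟨g, hg⟩ := h6
      rw [← aeval_mapQ, hg, map_mul, aeval_mapQ, hθ, zero_mul]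
    have h8 := lam_coe (F j) (θ j) (hθ j) (fun i : Fin (r + 1) => f.coeff i)
    rw [hpol, h7, mul_zero] at h8
    exact RingOfIntegers.coe_eq_zero_iff.1 h8
  refine ⟨hFx, ?_⟩
  -- the primes
  let A : Fin q → ℕ := fun j =>
    Ideal.absNorm (Ideal.span {lam (F j) (θ j) (hθ j) r (fun i => f.coeff i)})
  let T : Fin q → Finset ℕ := fun j => (A j).primeFactors.filter (fun p => p ∉ S₀ ∧ ¬ p ^ 2 ∣ A j)
  have hTlog : ∀ j, Real.log (sqf S₀ (A j)) = ∑ p ∈ T j, Real.log p := by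
    intro j
    unfold sqf
    rw [Nat.cast_prod, Real.log_prod]
    intro p hp
    rw [Finset.mem_filter] at hp
    exact_mod_cast (Nat.mem_primeFactors.1 hp.1).1.ne_zero
  have hT : ∀ j, ∀ p ∈ T j, p.Prime ∧ p ∉ S₀ ∧
      ∃ t : ℤ, (p : ℤ) ∣ (F j).eval t ∧ (p : ℤ) ∣ f.eval t := by
    intro j p hp
    rw [Finset.mem_filter] at hp
    obtain ⟨hp1, hp2, -⟩ := Nat.mem_primeFactors.1 hp.1
    refine ⟨hp1, hp.2.1, ?_⟩
    obtain ⟨t, h1, h2⟩ := common_root (hθ j) (fun i : Fin (r + 1) => f.coeff i) hp1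
      (fun h => hp.2.1 (hlc j p hp1 h)) hp2 hp.2.2
    rw [hpol] at h2
    exact ⟨t, h1, h2⟩
  have hlow := cnt_lower F S₀ S' hbez hS'p k x f hgen hf hd hx hFx T hT
  -- the height
  have hf0 : f ≠ 0 := hf.ne_zero
  have hbox1 : 1 ≤ box r f := by
    have h1 : f.coeff r ≠ 0 := by
      rw [← hdr]
      exact leadingCoeff_ne_zero.2 hf0
    have h2 := coeff_le_box (r := r) f ⟨r, Nat.lt_succ_self r⟩
    have h3 : 1 ≤ (f.coeff r).natAbs := Nat.one_le_iff_ne_zero.2 (Int.natAbs_ne_zero.2 h1)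
    exact h3.trans h2
  have hboxR : (1 : ℝ) ≤ box r f := by exact_mod_cast hbox1
  have hr0 : (0 : ℝ) < r := by exact_mod_cast hr1
  have hmh := Pool.Agent.W469.CV.MH.t k x f hf (by omega) hx
  rw [← hd, mul_div_cancel₀ _ (by rw [hdr]; exact hr0.ne')] at hmh
  have hm1 : 1 ≤ Pool.Agent.H813R3.Voj.mahler f := Pool.Agent.H813R3.Voj.one_le_mahler hf0
  have hm2 := mahler_le (r := r) hdr.le
  have hm3 : Real.log (Pool.Agent.H813R3.Voj.mahler f) ≤ Real.log (r + 1) + Real.log (box r f) := by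
    rw [← Real.log_mul (by positivity) (by positivity)]
    exact Real.log_le_log (by linarith) hm2
  obtain ⟨H, hH⟩ : ∃ H : ℝ, H = Real.log (Height.mulHeight₁ x) := ⟨_, rfl⟩
  obtain ⟨β, hβ⟩ : ∃ β : ℝ, β = Real.log (box r f) := ⟨_, rfl⟩
  have hβ0 : 0 ≤ β := by rw [hβ]; exact Real.log_nonneg hboxR
  rw [← hH] at hmh ⊢
  rw [← hβ] at hm3
  have hlogr : 0 ≤ Real.log ((r : ℝ) + 1) := Real.log_nonneg (by linarith)
  have h1 : ∀ j, ((F j).natDegree - ε : ℝ) * β ≤ ∑ p ∈ T j, Real.log (p : ℝ) := by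
    intro j
    have h2 := (hgd j).2
    have h3 := Real.log_le_log (Real.rpow_pos_of_pos (by linarith) _) h2
    rw [Real.log_rpow (by linarith), hK, ← hβ] at h3
    rw [← hTlog]
    exact h3
  have h2 := Finset.sum_le_sum fun j (_ : j ∈ (Finset.univ : Finset (Fin q))) => h1 j
  rw [← Finset.sum_mul, Finset.sum_sub_distrib, Finset.sum_const, Finset.card_univ,
    Fintype.card_fin, nsmul_eq_mul] at h2
  obtain ⟨D, hD⟩ : ∃ D : ℝ, D = ∑ j, ((F j).natDegree : ℝ) := ⟨_, rfl⟩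
  have hDq : (q : ℝ) * ε ≤ D := by
    have h3 : (q : ℝ) * 1 ≤ D := by
      rw [hD]
      calc (q : ℝ) * 1 = ∑ j : Fin q, (1 : ℝ) := by simp
        _ ≤ _ := Finset.sum_le_sum fun j _ => by exact_mod_cast hn1 j
    have h4 : (q : ℝ) * ε ≤ q * 1 := mul_le_mul_of_nonneg_left hε1 (Nat.cast_nonneg _)
    linarith
  rw [← hD] at h2 ⊢
  have h3 : (D - q * ε) * H ≤ (D - q * ε) * (Real.log (r + 1) + β) :=
    mul_le_mul_of_nonneg_left (by linarith) (by linarith)
  have h4 : 0 ≤ (q : ℝ) * ε * Real.log (r + 1) := by positivity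
  have h5 : (D - q * ε) * (Real.log (r + 1) + β) = D * Real.log (r + 1) - q * ε * Real.log (r + 1) +
      (D - q * ε) * β := by ring
  linarith

end Pool.Agent.Helper19K9.Ld
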