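import Pool.Agent.Helper19K9.Ld.Fin

/-!
# The inequality on all curves
-/

set_option autoImplicit false

namespace Pool.Agent.Helper19K9.Ld

open Polynomial NumberField IntermediateField
open Pool.Agent.W223.AC

/-- **Vojta's inequality for points of degree `r` on all curves, branch points of degree at most
`2 r + 1`.** -/
theorem main {q : ℕ} (F : Fin q → ℤ[X]) (hF : ∀ j, Irreducible ((F j).map (Int.castRingHom ℚ)))
    (hdist : ∀ i j, i ≠ j → ¬ Associated ((F i).map (Int.castRingHom ℚ))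
      ((F j).map (Int.castRingHom ℚ)))
    (r : ℕ) (hr1 : 1 ≤ r) (hr : ∀ j, (F j).natDegree ≤ 2 * r + 1) {ε : ℝ} (hε : 0 < ε) :
    ∃ (E : Set ℤ[X]) (c C : ℝ), 0 < c ∧ 0 < C ∧
      (∀ B : ℕ, 1 ≤ B → ∀ T : Finset ℤ[X],
        (∀ f ∈ T, f ∈ E ∧ f.natDegree ≤ r ∧ ∀ i, |f.coeff i| ≤ B) →
        (T.card : ℝ) ≤ C * (B : ℝ) ^ ((r + 1 : ℝ) - c)) ∧
      ∀ (A : Type) [CommRing A] [IsDedekindDomain A] [Algebra ℚ A] [Algebra ℚ[X] A]
        [IsScalarTower ℚ ℚ[X] A] [Module.Finite ℚ[X] A] [FaithfulSMul ℚ[X] A]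
        (u : Fin q → ℕ) (y : ∀ j, Fin (u j + 1) → A), (∀ j, y j 0 = psi A (F j)) →
        (∀ j i, y j i ∈ (Ideal.span {psi A (F j)}).radical) →
        ∃ cA : ℝ, ∀ (k L : Type) [Field k] [NumberField k] [Field L] [NumberField L] [Algebra k L]
          (φ : A →+* L) (x : k) (f : ℤ[X]), f ∉ E → ℚ⟮x⟯ = ⊤ → Irreducible f →
          f.natDegree = Module.finrank ℚ k → f.natDegree = r → aeval x f = 0 →
          φ (tt A) = algebraMap k L x → ∀ S : Finset ℕ, (∀ p ∈ S, p.Prime) →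
          (∀ j, φ (y j 0) ≠ 0) ∧
          (∑ j, (∑ w : InfinitePlace L, (w.mult : ℝ) * lamI (y j) φ w + mS S (y j) φ)) /
              Module.finrank ℚ L +
            (∑ j, ((F j).natDegree : ℝ) - (∑ j, (Module.finrank ℚ
              (A ⧸ Ideal.span (Set.range (y j))) : ℝ)) / Module.finrank ℚ[X] A) *
                (Real.log (Height.mulHeight₁ x) / Module.finrank ℚ k) +
            Real.log |(discr k : ℝ)| / Module.finrank ℚ k ≤
          Real.log |(discr L : ℝ)| / Module.finrank ℚ L +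
            ε * (Real.log (Height.mulHeight₁ x) / Module.finrank ℚ k) +
            ∑ p ∈ S, Real.log p + cA := by
  classical
  -- the primes
  have hR : ∀ i j, ∃ R : ℤ, R ≠ 0 ∧ (i ≠ j → ∃ U V : ℤ[X], U * F i + V * F j = C R) := by
    intro i j
    by_cases hij : i = j
    · exact ⟨1, one_ne_zero, fun h => absurd hij h⟩
    · obtain ⟨U, V, R, hR, h⟩ := bezout (F i) (F j) (hF i) (hF j) (hdist i j hij)
      exact ⟨R, hR, fun _ => ⟨U, V, h⟩⟩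
  choose R hR0 hR using hR
  set S₀ : Finset ℕ := (Finset.univ.biUnion fun j => (F j).leadingCoeff.natAbs.primeFactors) ∪
    Finset.univ.biUnion fun i => Finset.univ.biUnion fun j => (R i j).natAbs.primeFactors with hS₀
  have hlc : ∀ j, ∀ p : ℕ, p.Prime → (p : ℤ) ∣ (F j).leadingCoeff → p ∈ S₀ := by
    intro j p hp h
    rw [hS₀, Finset.mem_union, Finset.mem_biUnion]
    left
    refine ⟨j, Finset.mem_univ j, Nat.mem_primeFactors.2 ⟨hp, Int.natCast_dvd.1 h, ?_⟩⟩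
    exact Int.natAbs_ne_zero.2 (lc_ne (hF j))
  have hbez : ∀ i j, i ≠ j → ∃ (U V : ℤ[X]) (R : ℤ), U * F i + V * F j = C R ∧
      ∀ p : ℕ, p.Prime → (p : ℤ) ∣ R → p ∈ S₀ := by
    intro i j hij
    obtain ⟨U, V, h⟩ := hR i j hij
    refine ⟨U, V, R i j, h, fun p hp hpR => ?_⟩
    rw [hS₀, Finset.mem_union]
    right
    refine Finset.mem_biUnion.2 ⟨i, Finset.mem_univ i, Finset.mem_biUnion.2 ⟨j, Finset.mem_univ j,
      Nat.mem_primeFactors.2 ⟨hp, Int.natCast_dvd.1 hpR, Int.natAbs_ne_zero.2 (hR0 i j)⟩⟩⟩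
  -- the fields
  have hfields := fun j => exists_field (F j) (hF j)
  choose K i1 i2 θ hθ hK using hfields
  obtain ⟨ε₁, hε₁⟩ : ∃ ε₁ : ℝ, ε₁ = min 1 (ε / (2 * (q + 1))) := ⟨_, rfl⟩
  have hε₁0 : 0 < ε₁ := by rw [hε₁]; exact lt_min one_pos (by positivity)
  have hε₁1 : ε₁ ≤ 1 := by rw [hε₁]; exact min_le_left _ _
  have hqε : q * ε₁ ≤ ε / 2 := by
    have h1 : ε₁ ≤ ε / (2 * (q + 1)) := by rw [hε₁]; exact min_le_right _ _
    have h2 : (q : ℝ) * ε₁ ≤ q * (ε / (2 * (q + 1))) :=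
      mul_le_mul_of_nonneg_left h1 (Nat.cast_nonneg _)
    have h3 : (q : ℝ) * (ε / (2 * (q + 1))) ≤ ε / 2 := by
      rw [mul_div_assoc', div_le_div_iff₀ (by positivity) (by norm_num)]
      nlinarith
    linarith
  have hn1 : ∀ j, 1 ≤ (F j).natDegree := by
    intro j
    have h1 := (hF j).natDegree_pos
    rwa [natDegree_map_eq_of_injective (Int.castRingHom ℚ).injective_int] at h1
  obtain ⟨c, C, hc, hC, hcount⟩ := bad_count F hF r (fun j => by have := hr j; omega) S₀ hε₁0 hε₁1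
    K i1 i2 θ hθ hK
  refine ⟨Bad F r S₀ ε₁ K i1 i2 θ hθ, c, C, hc, hC, hcount, ?_⟩
  intro A _ _ _ _ _ _ _ u y hy0 hyr
  obtain ⟨S₁, C₁, hS₁, hC₁, hcurve⟩ := curve A F hn1 u y hy0 hyr (ε := ε / 2) (by positivity)
  refine ⟨C₁ + (q * ∑ p ∈ S₁, Real.log p + (∑ j, ((F j).natDegree : ℝ)) * Real.log (r + 1)), ?_⟩
  intro k L _ _ _ _ _ φ x f hfE hgen hf hd hdr hx hφ S hS
  obtain ⟨hFx, hgood⟩ := good F hF r hr1 S₀ hlc hbez hε₁0 hε₁1 K i1 i2 θ hθ hK S₁ hS₁ k x f hgen hf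
    hd hdr hx hfE
  have h1 := hcurve k L φ x hφ hFx S hS
  refine ⟨?_, ?_⟩
  · intro j
    rw [hy0, phi_psi', hφ, aeval_algebraMap_apply, _root_.map_ne_zero]
    exact hFx j
  obtain ⟨d, hd'⟩ : ∃ d : ℝ, d = (Module.finrank ℚ k : ℝ) := ⟨_, rfl⟩
  have hd1 : 1 ≤ d := by
    rw [hd']
    exact_mod_cast Module.finrank_pos (R := ℚ) (M := k)
  obtain ⟨H, hH⟩ : ∃ H : ℝ, H = Real.log (Height.mulHeight₁ x) := ⟨_, rfl⟩
  have hH0 : 0 ≤ H := by
    rw [hH, ← Height.logHeight₁_eq_log_mulHeight₁]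
    exact Height.zero_le_logHeight₁ x
  rw [← hd', ← hH] at h1 ⊢
  rw [← hH] at hgood
  obtain ⟨N, hN⟩ : ∃ N : ℝ, N = Pool.Agent.W223.VD.cnt S₁ (fun _ : Fin 1 => ((0 : ℤ), (1 : ℤ)))
    (aeval x (∏ j, F j)) := ⟨_, rfl⟩
  rw [← hN] at h1 hgood
  obtain ⟨D, hD⟩ : ∃ D : ℝ, D = ∑ j, ((F j).natDegree : ℝ) := ⟨_, rfl⟩
  rw [← hD] at hgood ⊢
  obtain ⟨Y, hY⟩ : ∃ Y : ℝ, Y = q * ∑ p ∈ S₁, Real.log p + D * Real.log (r + 1) := ⟨_, rfl⟩
  have hY0 : 0 ≤ Y := by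
    rw [hY]
    have h2 : 0 ≤ ∑ p ∈ S₁, Real.log (p : ℝ) :=
      Finset.sum_nonneg fun p _ => Real.log_natCast_nonneg _
    have h3 : 0 ≤ D := by rw [hD]; exact Finset.sum_nonneg fun j _ => Nat.cast_nonneg _
    have h4 : 0 ≤ Real.log ((r : ℝ) + 1) := Real.log_nonneg (by
      have : (0 : ℝ) ≤ r := Nat.cast_nonneg _
      linarith)
    positivity
  rw [← hY]
  have hg2 : (D - ε / 2) * H ≤ N + Y := by
    have h2 : (D - ε / 2) * H ≤ (D - q * ε₁) * H := mul_le_mul_of_nonneg_right (by linarith) hH0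
    rw [hY]
    linarith
  have hg3 : (D - ε / 2) * (H / d) ≤ N / d + Y := by
    have h2 := div_le_div_of_nonneg_right hg2 (by linarith : (0 : ℝ) ≤ d)
    have h3 : Y / d ≤ Y := div_le_self hY0 hd1
    have h4 : (N + Y) / d = N / d + Y / d := add_div _ _ _
    have h5 : (D - ε / 2) * (H / d) = (D - ε / 2) * H / d := by ring
    rw [h5]
    linarith
  have h2 : (Real.log |(discr k : ℝ)| + N) / d = Real.log |(discr k : ℝ)| / d + N / d := add_div _ _ _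
  rw [h2] at h1
  obtain ⟨μ, hμ⟩ : ∃ μ : ℝ, μ = (∑ j, (Module.finrank ℚ
    (A ⧸ Ideal.span (Set.range (y j))) : ℝ)) / Module.finrank ℚ[X] A := ⟨_, rfl⟩
  rw [← hμ] at h1 ⊢
  obtain ⟨h, hh⟩ : ∃ h : ℝ, h = H / d := ⟨_, rfl⟩
  rw [← hh] at hg3 h1 ⊢
  have e1 : (D - μ) * h = (D - ε / 2) * h - (μ - ε / 2) * h := by ring
  rw [e1]
  have e2 : (μ + ε / 2) * h = (μ - ε / 2) * h + ε * h := by ring
  rw [e2] at h1
  linarith

end Pool.Agent.Helper19K9.Ld
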