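import Pool.Agent.Helper19K9.Ld.Pw

/-!
# Small values, the squarefree part, and the count for one norm form
-/

set_option autoImplicit false

namespace Pool.Agent.Helper19K9.Ld

open NumberField

/-! ### the squarefree part outside `S` -/

/-- the product of the primes outside `S` which divide `A` exactly once -/
def sqf (S : Finset ℕ) (A : ℕ) : ℕ :=
  ∏ p ∈ A.primeFactors.filter (fun p => p ∉ S ∧ ¬ p ^ 2 ∣ A), p

theorem mem_sqf {S : Finset ℕ} {A p : ℕ} (hp : p.Prime) (h : p ∣ sqf S A) :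
    p ∣ A ∧ p ∉ S ∧ ¬ p ^ 2 ∣ A := by
  unfold sqf at h
  rw [hp.prime.dvd_finsetProd_iff] at h
  obtain ⟨q, hq, hpq⟩ := h
  rw [Finset.mem_filter] at hq
  have hq' := Nat.mem_primeFactors.1 hq.1
  have : p = q := (Nat.prime_dvd_prime_iff_eq hp hq'.1).1 hpq
  subst this
  exact ⟨hq'.2.1, hq.2⟩

theorem dvd_sqf {S : Finset ℕ} {A p : ℕ} (hA : A ≠ 0) (hp : p.Prime) (h : p ∣ A) (hS : p ∉ S)
    (h2 : ¬ p ^ 2 ∣ A) : p ∣ sqf S A := by
  unfold sqf
  refine Finset.dvd_prod_of_mem (fun p => p) ?_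
  rw [Finset.mem_filter, Nat.mem_primeFactors]
  exact ⟨⟨hp, h, hA⟩, hS, h2⟩

theorem sqf_dvd {S : Finset ℕ} {A : ℕ} : sqf S A ∣ A := by
  unfold sqf
  refine Finset.prod_primes_dvd A ?_ ?_
  · intro p hp
    rw [Finset.mem_filter] at hp
    exact (Nat.mem_primeFactors.1 hp.1).1.prime
  · intro p hp
    rw [Finset.mem_filter] at hp
    exact (Nat.mem_primeFactors.1 hp.1).2.1

theorem sqf_pos (S : Finset ℕ) (A : ℕ) : 0 < sqf S A := by
  unfold sqf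
  refine Finset.prod_pos fun p hp => ?_
  rw [Finset.mem_filter] at hp
  exact (Nat.mem_primeFactors.1 hp.1).1.pos

theorem sqf_split {S : Finset ℕ} {A : ℕ} (hA : A ≠ 0) :
    ∃ a : ℕ, A = a * sqf S A ∧ a.Coprime (sqf S A) ∧ PwS S a := by
  obtain ⟨a, ha⟩ := sqf_dvd (S := S) (A := A)
  have hcop : a.Coprime (sqf S A) := by
    rw [Nat.coprime_iff_gcd_eq_one]
    by_contra h
    obtain ⟨p, hp, hpg⟩ := Nat.exists_prime_and_dvd h
    have h1 : p ∣ a := hpg.trans (Nat.gcd_dvd_left _ _)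
    have h2 : p ∣ sqf S A := hpg.trans (Nat.gcd_dvd_right _ _)
    refine (mem_sqf hp h2).2.2 ?_
    rw [ha, pow_two]
    exact mul_dvd_mul h2 h1
  refine ⟨a, by rw [mul_comm]; exact ha, hcop, ?_, ?_⟩
  · rintro rfl
    rw [mul_zero] at ha
    exact hA ha
  · intro p hp hpa hpS
    have hpA : p ∣ A := by
      rw [ha]
      exact hpa.mul_left _
    have hnot : ¬ p ∣ sqf S A := fun h => by
      have := Nat.Coprime.eq_one_of_dvd (Nat.Coprime.coprime_dvd_left hpa hcop) h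
      exact hp.one_lt.ne' this
    have h2 : p ^ 2 ∣ A := by
      by_contra h
      exact hnot (dvd_sqf hA hp hpA hpS h)
    rw [ha] at h2
    have hc : (p ^ 2).Coprime (sqf S A) := Nat.Coprime.pow_left 2 ((Nat.Prime.coprime_iff_not_dvd hp).2 hnot)
    exact hc.dvd_of_dvd_mul_left h2

variable {K : Type} [Field K] [NumberField K]

/-- **Few points at which some conjugate is small.** -/
theorem count_small {r : ℕ} (w : Fin (r + 1) → 𝓞 K) (a : ℤ) (ha : a ≠ 0) (hw : w 0 = (a : 𝓞 K)) :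
    ∀ B : ℕ, 1 ≤ B → ∀ T : ℝ, 0 ≤ T → ∀ E : Finset (Fin (r + 1) → ℤ),
      (∀ u ∈ E, (∀ i, |u i| ≤ B) ∧ ∃ σ : K →ₐ[ℚ] ℂ, ‖σ ((∑ i, (u i : 𝓞 K) * w i : 𝓞 K) : K)‖ ≤ T) →
      (E.card : ℝ) ≤ Module.finrank ℚ K * ((2 * T + 1) * (3 * B : ℝ) ^ r) := by
  classical
  intro B hB T hT E hE
  have hB1 : (1 : ℝ) ≤ B := by exact_mod_cast hB
  -- one embedding
  have one : ∀ σ : K →ₐ[ℚ] ℂ, ∀ F : Finset (Fin (r + 1) → ℤ),
      (∀ u ∈ F, (∀ i, |u i| ≤ B) ∧ ‖σ ((∑ i, (u i : 𝓞 K) * w i : 𝓞 K) : K)‖ ≤ T) →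
      (F.card : ℝ) ≤ (2 * T + 1) * (3 * B : ℝ) ^ r := by
    intro σ F hF
    set ρ : ℕ := ⌊2 * T⌋₊ + 1 with hρ
    have hρT : (ρ : ℝ) ≤ 2 * T + 1 := by
      rw [hρ]
      push_cast
      linarith [Nat.floor_le (show 0 ≤ 2 * T by linarith)]
    have hρT2 : 2 * T < ρ := by
      rw [hρ]
      push_cast
      exact Nat.lt_floor_add_one _
    have hρ0 : (0 : ℤ) < ρ := by
      rw [hρ]
      push_cast
      omega
    let g : (Fin (r + 1) → ℤ) → (Fin (r + 1) → ℤ) := fun u => Fin.cons (u 0 % (ρ : ℤ)) (fun i => u i.succ)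
    have hinj : Set.InjOn g F := by
      intro u hu u' hu' hgg
      rw [Finset.mem_coe] at hu hu'
      have h0 : u 0 % (ρ : ℤ) = u' 0 % (ρ : ℤ) := by
        have := congrFun hgg 0
        simpa [g] using this
      have hs : ∀ i : Fin r, u i.succ = u' i.succ := by
        intro i
        have := congrFun hgg i.succ
        simpa [g] using this
      have hdiff : ((∑ i, (u i : 𝓞 K) * w i : 𝓞 K) : K) - ((∑ i, (u' i : 𝓞 K) * w i : 𝓞 K) : K) =
          ((u 0 - u' 0 : ℤ) : K) * (a : K) := by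
        have e0 : ∀ k : ℤ, algebraMap (𝓞 K) K (k : 𝓞 K) = (k : K) :=
          fun k => map_intCast (algebraMap (𝓞 K) K) k
        have h3 : ∑ i : Fin r, (u i.succ : 𝓞 K) * w i.succ = ∑ i : Fin r, (u' i.succ : 𝓞 K) * w i.succ :=
          Finset.sum_congr rfl fun i _ => by rw [hs i]
        have h4 : (∑ i, (u i : 𝓞 K) * w i) - (∑ i, (u' i : 𝓞 K) * w i) =
            ((u 0 - u' 0 : ℤ) : 𝓞 K) * (a : 𝓞 K) := by
          rw [Fin.sum_univ_succ, Fin.sum_univ_succ, hw, h3]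
          push_cast
          ring
        have h5 := congrArg (algebraMap (𝓞 K) K) h4
        rw [map_sub, map_mul, e0, e0] at h5
        exact h5
      have h1 : ‖σ (((u 0 - u' 0 : ℤ) : K) * (a : K))‖ ≤ 2 * T := by
        rw [← hdiff, map_sub]
        refine (norm_sub_le _ _).trans ?_
        have e1 := (hF u hu).2
        have e2 := (hF u' hu').2
        linarith
      rw [map_mul, map_intCast, map_intCast, norm_mul, Complex.norm_intCast,
        Complex.norm_intCast] at h1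
      have h2 : (1 : ℝ) ≤ |(a : ℝ)| := by exact_mod_cast Int.one_le_abs ha
      have h3 : |((u 0 - u' 0 : ℤ) : ℝ)| < ρ := by
        have h4 : |((u 0 - u' 0 : ℤ) : ℝ)| * 1 ≤ |((u 0 - u' 0 : ℤ) : ℝ)| * |(a : ℝ)| :=
          mul_le_mul_of_nonneg_left h2 (abs_nonneg _)
        linarith
      have h5 : |u 0 - u' 0| < (ρ : ℤ) := by exact_mod_cast h3
      have h6 : (ρ : ℤ) ∣ u 0 - u' 0 := Int.ModEq.dvd (show u' 0 ≡ u 0 [ZMOD ρ] from h0.symm)
      have h7 : u 0 - u' 0 = 0 := Int.eq_zero_of_abs_lt_dvd h6 h5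
      funext i
      refine Fin.cases ?_ (fun j => ?_) i
      · linarith
      · exact hs j
    have hmaps : Set.MapsTo g F (Fintype.piFinset (Fin.cons (Finset.Ico (0 : ℤ) ρ)
        (fun _ : Fin r => Finset.Icc (-(B : ℤ)) B) : Fin (r + 1) → Finset ℤ)) := by
      intro u hu
      rw [Finset.mem_coe] at hu ⊢
      rw [Fintype.mem_piFinset]
      intro i
      refine Fin.cases ?_ (fun j => ?_) i
      · show g u 0 ∈ Finset.Ico (0 : ℤ) ρ
        simp only [g, Fin.cons_zero, Finset.mem_Ico]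
        exact ⟨Int.emod_nonneg _ hρ0.ne', Int.emod_lt_of_pos _ hρ0⟩
      · show g u j.succ ∈ Finset.Icc (-(B : ℤ)) B
        simp only [g, Fin.cons_succ, Finset.mem_Icc]
        have := (hF u hu).1 j.succ
        rw [abs_le] at this
        exact this
    have hcard := Finset.card_le_card_of_injOn g hmaps hinj
    rw [Fintype.card_piFinset, Fin.prod_univ_succ] at hcard
    simp only [Fin.cons_zero, Fin.cons_succ, Int.card_Ico, Int.card_Icc, Finset.prod_const,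
      Finset.card_univ, Fintype.card_fin] at hcard
    have e1 : ((ρ : ℤ) - 0).toNat = ρ := by simp
    have e2 : ((B : ℤ) + 1 - -(B : ℤ)).toNat = 2 * B + 1 := by omega
    rw [e1, e2] at hcard
    calc (F.card : ℝ) ≤ ((ρ * (2 * B + 1) ^ r : ℕ) : ℝ) := by exact_mod_cast hcard
      _ = (ρ : ℝ) * (2 * B + 1 : ℝ) ^ r := by push_cast; ring
      _ ≤ (2 * T + 1) * (3 * B : ℝ) ^ r := by
          refine mul_le_mul hρT ?_ (by positivity) (by positivity)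
          exact pow_le_pow_left₀ (by positivity) (by linarith) r
  have hsub : E ⊆ Finset.univ.biUnion (fun σ : K →ₐ[ℚ] ℂ => E.filter fun u =>
      ‖σ ((∑ i, (u i : 𝓞 K) * w i : 𝓞 K) : K)‖ ≤ T) := by
    intro u hu
    obtain ⟨-, σ, hσ⟩ := hE u hu
    rw [Finset.mem_biUnion]
    exact ⟨σ, Finset.mem_univ σ, Finset.mem_filter.2 ⟨hu, hσ⟩⟩
  calc (E.card : ℝ) ≤ ((Finset.univ.biUnion (fun σ : K →ₐ[ℚ] ℂ => E.filter fun u =>
        ‖σ ((∑ i, (u i : 𝓞 K) * w i : 𝓞 K) : K)‖ ≤ T)).card : ℝ) := by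
        exact_mod_cast Finset.card_le_card hsub
    _ ≤ ∑ σ : K →ₐ[ℚ] ℂ, ((E.filter fun u =>
        ‖σ ((∑ i, (u i : 𝓞 K) * w i : 𝓞 K) : K)‖ ≤ T).card : ℝ) := by
        exact_mod_cast Finset.card_biUnion_le
    _ ≤ ∑ _σ : K →ₐ[ℚ] ℂ, (2 * T + 1) * (3 * B : ℝ) ^ r := by
        refine Finset.sum_le_sum fun σ _ => one σ _ ?_
        intro u hu
        rw [Finset.mem_filter] at hu
        exact ⟨(hE u hu.1).1, hu.2⟩
    _ = _ := by
        rw [Finset.sum_const, Finset.card_univ, AlgHom.card ℚ K ℂ, nsmul_eq_mul]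

/-- **The count for one norm form**: for few integral points of a box the norm is not, up to a small
factor, a product of different primes outside `S`. -/
theorem count_norm {r m : ℕ} (hm : m ≤ r + 1) (w : Fin (r + 1) → 𝓞 K) (a : ℤ) (ha : a ≠ 0)
    (hw : w 0 = (a : 𝓞 K))
    (hind : ∀ v : Fin (r + 1) → ℤ, (∀ i : Fin (r + 1), m ≤ (i : ℕ) → v i = 0) →
      ∑ i, (v i : 𝓞 K) * w i = 0 → v = 0)
    (hκ : (1 : ℝ) / 2 < (m : ℝ) / Module.finrank ℚ K) (S : Finset ℕ) {ε : ℝ} (hε : 0 < ε)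
    (hε1 : ε ≤ 1) :
    ∃ c C : ℝ, 0 < c ∧ 0 < C ∧ ∀ B : ℕ, 1 ≤ B → ∀ E : Finset (Fin (r + 1) → ℤ),
      (∀ u ∈ E, (∀ i, |u i| ≤ B) ∧ ¬ (∑ i, (u i : 𝓞 K) * w i ≠ 0 ∧
        (B : ℝ) ^ ((Module.finrank ℚ K : ℝ) - ε) ≤
          sqf S (Ideal.absNorm (Ideal.span {∑ i, (u i : 𝓞 K) * w i})))) →
      (E.card : ℝ) ≤ C * (B : ℝ) ^ ((r + 1 : ℝ) - c) := by
  classical
  obtain ⟨c₁, C₁, hc₁, hC₁, hbad⟩ := count_bad hm w hind hκ S (ε := ε / 2) (by positivity)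
  set n := Module.finrank ℚ K with hn
  have hn1 : 1 ≤ n := Module.finrank_pos
  have hnR : (1 : ℝ) ≤ n := by exact_mod_cast hn1
  have hn0 : (0 : ℝ) < n := by linarith
  obtain ⟨c₂, hc₂⟩ : ∃ c₂ : ℝ, c₂ = ε / (2 * n) := ⟨_, rfl⟩
  have hc₂0 : 0 < c₂ := by rw [hc₂]; positivity
  have hc₂1 : c₂ ≤ 1 := by
    rw [hc₂, div_le_one (by positivity)]
    linarith
  refine ⟨min c₁ c₂, C₁ + n * (3 * 3 ^ r), lt_min hc₁ hc₂0, by positivity, ?_⟩
  intro B hB E hE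
  have hB1 : (1 : ℝ) ≤ B := by exact_mod_cast hB
  have hB0 : (0 : ℝ) < B := by linarith
  set T : ℝ := (B : ℝ) ^ (1 - c₂) with hT
  have hT1 : 1 ≤ T := Real.one_le_rpow hB1 (by linarith)
  set E₁ := E.filter fun u => ∃ σ : K →ₐ[ℚ] ℂ, ‖σ ((∑ i, (u i : 𝓞 K) * w i : 𝓞 K) : K)‖ ≤ T
    with hE₁
  set E₂ := E.filter fun u => ¬ ∃ σ : K →ₐ[ℚ] ℂ, ‖σ ((∑ i, (u i : 𝓞 K) * w i : 𝓞 K) : K)‖ ≤ T
    with hE₂
  have hsplit : E.card = E₁.card + E₂.card := (Finset.card_filter_add_card_filter_not _).symm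
  have h1 : (E₁.card : ℝ) ≤ n * ((2 * T + 1) * (3 * B : ℝ) ^ r) := by
    refine count_small w a ha hw B hB T (by linarith) E₁ ?_
    intro u hu
    rw [hE₁, Finset.mem_filter] at hu
    exact ⟨(hE u hu.1).1, hu.2⟩
  have h2 : (E₂.card : ℝ) ≤ C₁ * (B : ℝ) ^ (((r + 1 : ℕ) : ℝ) - c₁) := by
    refine hbad B hB E₂ ?_
    intro u hu
    rw [hE₂, Finset.mem_filter] at hu
    obtain ⟨huE, hσ⟩ := hu
    obtain ⟨hbox, hng⟩ := hE u huE
    push Not at hσ
    set z : 𝓞 K := ∑ i, (u i : 𝓞 K) * w i with hz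
    have hcardσ : Fintype.card (K →ₐ[ℚ] ℂ) = n := AlgHom.card ℚ K ℂ
    have hz0 : z ≠ 0 := by
      intro h
      have hne : Nonempty (K →ₐ[ℚ] ℂ) := Fintype.card_pos_iff.1 (by omega)
      obtain ⟨σ⟩ := hne
      have := hσ σ
      rw [h] at this
      simp at this
      linarith
    have hnorm : T ^ n ≤ (Ideal.absNorm (Ideal.span {z}) : ℝ) := by
      have h8 : (Ideal.absNorm (Ideal.span {z}) : ℝ) = |((Algebra.norm ℤ z : ℤ) : ℝ)| := by
        rw [← natAbs_norm, Nat.cast_natAbs, Int.cast_abs]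
      rw [h8, ← Pool.Agent.W585.VD.prod_norm z]
      calc T ^ n = ∏ _σ : K →ₐ[ℚ] ℂ, T := by
            rw [Finset.prod_const, Finset.card_univ, hcardσ]
        _ ≤ _ := Finset.prod_le_prod (fun _ _ => by positivity) (fun σ _ => (hσ σ).le)
    have hTn : T ^ n = (B : ℝ) ^ ((n : ℝ) - ε / 2) := by
      rw [hT, ← Real.rpow_natCast, ← Real.rpow_mul hB0.le, hc₂]
      congr 1
      field_simp
    have hA0 : Ideal.absNorm (Ideal.span {z}) ≠ 0 := by
      rw [Ne, Ideal.absNorm_eq_zero_iff, Ideal.span_singleton_eq_bot]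
      exact hz0
    obtain ⟨a', ha1, ha2, ha3⟩ := sqf_split (S := S) hA0
    refine ⟨hbox, hz0, a', sqf S (Ideal.absNorm (Ideal.span {z})), ha3, ?_, ha2, ha1⟩
    have hlt : (sqf S (Ideal.absNorm (Ideal.span {z})) : ℝ) < (B : ℝ) ^ ((n : ℝ) - ε) := by
      by_contra h
      exact hng ⟨hz0, not_lt.1 h⟩
    have hs0 : (0 : ℝ) < sqf S (Ideal.absNorm (Ideal.span {z})) := by
      exact_mod_cast sqf_pos S _
    have h9 : (Ideal.absNorm (Ideal.span {z}) : ℝ) =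
        a' * sqf S (Ideal.absNorm (Ideal.span {z})) := by exact_mod_cast ha1
    rw [hTn, h9] at hnorm
    have h10 : (B : ℝ) ^ ((n : ℝ) - ε / 2) = (B : ℝ) ^ (ε / 2) * (B : ℝ) ^ ((n : ℝ) - ε) := by
      rw [← Real.rpow_add hB0]
      congr 1
      ring
    rw [h10] at hnorm
    have ha0 : (0 : ℝ) ≤ a' := Nat.cast_nonneg _
    have h11 : (B : ℝ) ^ (ε / 2) * (B : ℝ) ^ ((n : ℝ) - ε) ≤ a' * (B : ℝ) ^ ((n : ℝ) - ε) :=
      hnorm.trans (mul_le_mul_of_nonneg_left hlt.le ha0)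
    exact le_of_mul_le_mul_right h11 (by positivity)
  have hb : (E.card : ℝ) = E₁.card + E₂.card := by rw [hsplit]; push_cast; ring
  rw [hb]
  have e1 : n * ((2 * T + 1) * (3 * B : ℝ) ^ r) ≤
      n * (3 * 3 ^ r) * (B : ℝ) ^ ((r + 1 : ℝ) - min c₁ c₂) := by
    have h3 : (B : ℝ) ^ ((r + 1 : ℝ) - c₂) ≤ (B : ℝ) ^ ((r + 1 : ℝ) - min c₁ c₂) :=
      Real.rpow_le_rpow_of_exponent_le hB1 (by linarith [min_le_right c₁ c₂])
    have h4 : T * (B : ℝ) ^ r = (B : ℝ) ^ ((r + 1 : ℝ) - c₂) := by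
      rw [hT, ← Real.rpow_natCast, ← Real.rpow_add hB0]
      congr 1
      ring
    calc n * ((2 * T + 1) * (3 * B : ℝ) ^ r) ≤ n * ((3 * T) * (3 * B : ℝ) ^ r) := by
          gcongr
          linarith
      _ = n * (3 * 3 ^ r) * (T * (B : ℝ) ^ r) := by
          rw [mul_pow]
          ring
      _ = n * (3 * 3 ^ r) * (B : ℝ) ^ ((r + 1 : ℝ) - c₂) := by rw [h4]
      _ ≤ _ := mul_le_mul_of_nonneg_left h3 (by positivity)
  have e2 : C₁ * (B : ℝ) ^ (((r + 1 : ℕ) : ℝ) - c₁) ≤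
      C₁ * (B : ℝ) ^ ((r + 1 : ℝ) - min c₁ c₂) := by
    refine mul_le_mul_of_nonneg_left ?_ hC₁.le
    refine Real.rpow_le_rpow_of_exponent_le hB1 ?_
    push_cast
    linarith [min_le_left c₁ c₂]
  calc (E₁.card : ℝ) + E₂.card ≤ n * (3 * 3 ^ r) * (B : ℝ) ^ ((r + 1 : ℝ) - min c₁ c₂) +
        C₁ * (B : ℝ) ^ ((r + 1 : ℝ) - min c₁ c₂) := add_le_add (h1.trans e1) (h2.trans e2)
    _ = _ := by ring

end Pool.Agent.Helper19K9.Ld
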