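import Pool.Agent.Helper19K9.Ld.Cn

/-!
# The norm form attached to an irreducible polynomial
-/

set_option autoImplicit false

namespace Pool.Agent.Helper19K9.Ld

open Polynomial NumberField

variable {K : Type} [Field K] [NumberField K]

/-- `a θ`, `a` the leading coefficient -/
noncomputable def eta (F : ℤ[X]) (θ : K) (hθ : aeval θ F = 0) : 𝓞 K :=
  ⟨F.leadingCoeff • θ, isIntegral_leadingCoeff_smul F θ hθ⟩

theorem eta_coe (F : ℤ[X]) (θ : K) (hθ : aeval θ F = 0) :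
    ((eta F θ hθ : 𝓞 K) : K) = (F.leadingCoeff : K) * θ := by
  show F.leadingCoeff • θ = _
  rw [zsmul_eq_mul]

/-- the numbers `a ^ (r - i) (a θ) ^ i = a ^ r θ ^ i` -/
noncomputable def ww (F : ℤ[X]) (θ : K) (hθ : aeval θ F = 0) (r : ℕ) (i : Fin (r + 1)) : 𝓞 K :=
  ((F.leadingCoeff : ℤ) : 𝓞 K) ^ (r - (i : ℕ)) * eta F θ hθ ^ (i : ℕ)

theorem ww_coe (F : ℤ[X]) (θ : K) (hθ : aeval θ F = 0) (r : ℕ) (i : Fin (r + 1)) :
    ((ww F θ hθ r i : 𝓞 K) : K) = (F.leadingCoeff : K) ^ r * θ ^ (i : ℕ) := by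
  have e0 : ∀ k : ℤ, algebraMap (𝓞 K) K (k : 𝓞 K) = (k : K) :=
    fun k => map_intCast (algebraMap (𝓞 K) K) k
  have h : algebraMap (𝓞 K) K (ww F θ hθ r i) = (F.leadingCoeff : K) ^ r * θ ^ (i : ℕ) := by
    unfold ww
    rw [map_mul, map_pow, map_pow, e0]
    have e1 : algebraMap (𝓞 K) K (eta F θ hθ) = (F.leadingCoeff : K) * θ := eta_coe F θ hθ
    rw [e1, mul_pow, ← mul_assoc, ← pow_add, Nat.sub_add_cancel (by omega)]
  exact h

theorem ww_zero (F : ℤ[X]) (θ : K) (hθ : aeval θ F = 0) (r : ℕ) :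
    ww F θ hθ r 0 = ((F.leadingCoeff ^ r : ℤ) : 𝓞 K) := by
  unfold ww
  push_cast
  simp

/-- the combination with coefficients `u` -/
noncomputable def lam (F : ℤ[X]) (θ : K) (hθ : aeval θ F = 0) (r : ℕ) (u : Fin (r + 1) → ℤ) : 𝓞 K :=
  ∑ i, (u i : 𝓞 K) * ww F θ hθ r i

/-- the polynomial with coefficients `u` -/
noncomputable def pol {r : ℕ} (u : Fin (r + 1) → ℤ) : ℤ[X] := ∑ i : Fin (r + 1), C (u i) * X ^ (i : ℕ)

theorem pol_coeff {r : ℕ} (u : Fin (r + 1) → ℤ) (i : Fin (r + 1)) : (pol u).coeff i = u i := by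
  unfold pol
  rw [finsetSum_coeff]
  simp only [coeff_C_mul, coeff_X_pow]
  rw [Finset.sum_eq_single i]
  · simp
  · intro j _ hj
    have : (i : ℕ) ≠ (j : ℕ) := fun h => hj (Fin.ext h.symm)
    simp [this]
  · simp

theorem pol_of {r : ℕ} (f : ℤ[X]) (hf : f.natDegree ≤ r) :
    pol (fun i : Fin (r + 1) => f.coeff i) = f := by
  unfold pol
  rw [Fin.sum_univ_eq_sum_range (fun i => C (f.coeff i) * X ^ i) (r + 1)]
  exact (as_sum_range_C_mul_X_pow' f (Nat.lt_succ_of_le hf)).symm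

theorem lam_coe (F : ℤ[X]) (θ : K) (hθ : aeval θ F = 0) {r : ℕ} (u : Fin (r + 1) → ℤ) :
    ((lam F θ hθ r u : 𝓞 K) : K) = (F.leadingCoeff : K) ^ r * aeval θ (pol u) := by
  have e0 : ∀ k : ℤ, algebraMap (𝓞 K) K (k : 𝓞 K) = (k : K) :=
    fun k => map_intCast (algebraMap (𝓞 K) K) k
  have h : algebraMap (𝓞 K) K (lam F θ hθ r u) = (F.leadingCoeff : K) ^ r * aeval θ (pol u) := by
    unfold lam pol
    rw [map_sum, map_sum, Finset.mul_sum]
    refine Finset.sum_congr rfl fun i _ => ?_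
    have e1 : algebraMap (𝓞 K) K (ww F θ hθ r i) = (F.leadingCoeff : K) ^ r * θ ^ (i : ℕ) :=
      ww_coe F θ hθ r i
    rw [map_mul, e0, e1, map_mul, map_pow, aeval_X, aeval_C]
    simp only [algebraMap_int_eq, eq_intCast]
    ring
  exact h

theorem lc_ne {F : ℤ[X]} (hF : Irreducible (F.map (Int.castRingHom ℚ))) : F.leadingCoeff ≠ 0 := by
  intro h
  rw [leadingCoeff_eq_zero] at h
  rw [h, Polynomial.map_zero] at hF
  exact not_irreducible_zero hF

theorem aeval_mapQ (θ : K) (g : ℤ[X]) : aeval θ (g.map (Int.castRingHom ℚ)) = aeval θ g := by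
  rw [← algebraMap_int_eq]
  exact aeval_map_algebraMap ℚ θ g

/-- a polynomial of small degree has no zero at `θ` -/
theorem small_deg {F : ℤ[X]} (hF : Irreducible (F.map (Int.castRingHom ℚ))) {θ : K}
    (hθ : aeval θ F = 0) {g : ℤ[X]} (hg : g.natDegree < F.natDegree) (h : aeval θ g = 0) : g = 0 := by
  by_contra hne
  set FQ := F.map (Int.castRingHom ℚ) with hFQ
  set gQ := g.map (Int.castRingHom ℚ) with hgQ
  have h1 : aeval θ FQ = 0 := by rw [hFQ, aeval_mapQ]; exact hθ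
  have h2 : aeval θ gQ = 0 := by rw [hgQ, aeval_mapQ]; exact h
  have hinj : Function.Injective (Int.castRingHom ℚ) := (Int.castRingHom ℚ).injective_int
  have hgQ0 : gQ ≠ 0 := (Polynomial.map_ne_zero_iff hinj).2 hne
  have h3 := minpoly.dvd ℚ θ h1
  have h4 := minpoly.dvd ℚ θ h2
  have hint : IsIntegral ℚ θ := Algebra.IsIntegral.isIntegral θ
  have hirr := minpoly.irreducible hint
  have h5 : Associated (minpoly ℚ θ) FQ := hirr.associated_of_dvd hF h3
  have h6 : FQ ∣ gQ := h5.symm.dvd.trans h4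
  have h7 := natDegree_le_of_dvd h6 hgQ0
  rw [hFQ, hgQ, natDegree_map_eq_of_injective hinj, natDegree_map_eq_of_injective hinj] at h7
  omega

/-- the independence needed in `count_norm` -/
theorem ww_ind {F : ℤ[X]} (hF : Irreducible (F.map (Int.castRingHom ℚ))) {θ : K}
    (hθ : aeval θ F = 0) {r m : ℕ} (hm : m ≤ F.natDegree) :
    ∀ v : Fin (r + 1) → ℤ, (∀ i : Fin (r + 1), m ≤ (i : ℕ) → v i = 0) →
      ∑ i, (v i : 𝓞 K) * ww F θ hθ r i = 0 → v = 0 := by
  intro v hv h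
  have h1 : lam F θ hθ r v = 0 := h
  have h2 := lam_coe F θ hθ v
  rw [h1] at h2
  have h3 : aeval θ (pol v) = 0 := by
    have h4 : (F.leadingCoeff : K) ^ r ≠ 0 := pow_ne_zero _ (by exact_mod_cast lc_ne hF)
    have h5 : (F.leadingCoeff : K) ^ r * aeval θ (pol v) = 0 := by
      rw [← h2]
      exact map_zero (algebraMap (𝓞 K) K)
    exact (mul_eq_zero.1 h5).resolve_left h4
  have hn0 : 0 < F.natDegree := by
    rw [Nat.pos_iff_ne_zero]
    intro h0
    have h6 : (F.map (Int.castRingHom ℚ)).natDegree = 0 := by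
      rw [natDegree_map_eq_of_injective (Int.castRingHom ℚ).injective_int, h0]
    exact (hF.natDegree_pos).ne' h6
  have h7 : (pol v).natDegree < F.natDegree := by
    rcases eq_or_ne (pol v) 0 with h0 | h0
    · rw [h0, natDegree_zero]; exact hn0
    rw [natDegree_lt_iff_degree_lt h0, degree_lt_iff_coeff_zero]
    intro i hi
    by_cases hir : i < r + 1
    · have := pol_coeff v ⟨i, hir⟩
      rw [show (((⟨i, hir⟩ : Fin (r + 1)) : ℕ)) = i from rfl] at this
      rw [this]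
      exact hv _ (by show m ≤ i; omega)
    · unfold pol
      rw [finsetSum_coeff]
      refine Finset.sum_eq_zero fun j _ => ?_
      rw [coeff_C_mul, coeff_X_pow, if_neg (by omega), mul_zero]
  have h8 := small_deg hF hθ h7 h3
  funext i
  have h9 := pol_coeff v i
  rw [h8, coeff_zero] at h9
  exact h9.symm

/-- a common root modulo `p` -/
theorem common_root {F : ℤ[X]} {θ : K} (hθ : aeval θ F = 0) {r : ℕ} (u : Fin (r + 1) → ℤ) {p : ℕ}
    (hp : p.Prime) (ha : ¬ (p : ℤ) ∣ F.leadingCoeff)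
    (h1 : p ∣ Ideal.absNorm (Ideal.span {lam F θ hθ r u}))
    (h2 : ¬ p ^ 2 ∣ Ideal.absNorm (Ideal.span {lam F θ hθ r u})) :
    ∃ t : ℤ, (p : ℤ) ∣ F.eval t ∧ (p : ℤ) ∣ (pol u).eval t := by
  classical
  obtain ⟨s, hs⟩ := h1
  have hcop : p.Coprime s := by
    rw [Nat.Prime.coprime_iff_not_dvd hp]
    intro h
    apply h2
    rw [hs, pow_two]
    exact mul_dvd_mul_left p h
  set J := Ideal.span {lam F θ hθ r u} ⊔ Ideal.span {(p : 𝓞 K)} with hJ
  have hJn : Ideal.absNorm J = p := absNorm_sup _ p s hs hcop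
  have hcard : Nat.card (𝓞 K ⧸ J) = p := by
    rw [← hJn, Ideal.absNorm_apply, Submodule.cardQuot_apply]
  have hfin : Finite (𝓞 K ⧸ J) := Nat.finite_of_card_ne_zero (by rw [hcard]; exact hp.ne_zero)
  have hft : Fintype (𝓞 K ⧸ J) := Fintype.ofFinite _
  have hcard' : Fintype.card (𝓞 K ⧸ J) = p := by rw [← Nat.card_eq_fintype_card]; exact hcard
  have : Fact p.Prime := ⟨hp⟩
  let e : ZMod p ≃+* (𝓞 K ⧸ J) := ZMod.ringEquivOfPrime (𝓞 K ⧸ J) hp hcard'
  let π : 𝓞 K →+* ZMod p := (e.symm : (𝓞 K ⧸ J) →+* ZMod p).comp (Ideal.Quotient.mk J)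
  have hπ0 : ∀ y ∈ J, π y = 0 := by
    intro y hy
    show e.symm (Ideal.Quotient.mk J y) = 0
    rw [Ideal.Quotient.eq_zero_iff_mem.2 hy, map_zero]
  set a : ZMod p := ((F.leadingCoeff : ℤ) : ZMod p) with haz
  have ha0 : a ≠ 0 := by
    rw [haz, Ne, ZMod.intCast_zmod_eq_zero_iff_dvd]
    exact ha
  set c := π (eta F θ hθ) with hc
  set t : ZMod p := c / a with ht
  have hct : c = a * t := by rw [ht, mul_div_cancel₀ _ ha0]
  -- the values
  have key : ∀ (N : ℕ) (g : ℤ[X]), g.natDegree ≤ N →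
      π (∑ i ∈ Finset.range (N + 1), (g.coeff i : 𝓞 K) * ((F.leadingCoeff : 𝓞 K) ^ (N - i) *
        eta F θ hθ ^ i)) = a ^ N * aeval t g := by
    intro N g hg
    rw [map_sum, aeval_eq_sum_range' (Nat.lt_succ_of_le hg), Finset.mul_sum]
    refine Finset.sum_congr rfl fun i hi => ?_
    rw [Finset.mem_range] at hi
    rw [map_mul, map_mul, map_pow, map_pow, map_intCast, map_intCast, ← hc, ← haz, hct, mul_pow,
      zsmul_eq_mul]
    have : a ^ N = a ^ (N - i) * a ^ i := by rw [← pow_add, Nat.sub_add_cancel (by omega)]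
    rw [this]
    ring
  have hev : ∀ g : ℤ[X], aeval t g = 0 → (p : ℤ) ∣ g.eval ((t.val : ℕ) : ℤ) := by
    intro g hg
    rw [← ZMod.intCast_zmod_eq_zero_iff_dvd]
    have h3 : ((g.eval ((t.val : ℕ) : ℤ) : ℤ) : ZMod p) = aeval (((t.val : ℕ) : ℤ) : ZMod p) g := by
      have h4 := aeval_algebraMap_apply_eq_algebraMap_eval (A := ZMod p) ((t.val : ℕ) : ℤ) g
      simpa using h4.symm
    rw [h3]
    have h5 : ((((t.val : ℕ) : ℤ) : ZMod p)) = t := by
      push_cast
      exact ZMod.natCast_zmod_val t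
    rw [h5, hg]
  refine ⟨((t.val : ℕ) : ℤ), hev F ?_, hev (pol u) ?_⟩
  · -- `F`
    have h3 := key F.natDegree F le_rfl
    have h4 : (∑ i ∈ Finset.range (F.natDegree + 1), (F.coeff i : 𝓞 K) *
        ((F.leadingCoeff : 𝓞 K) ^ (F.natDegree - i) * eta F θ hθ ^ i)) = 0 := by
      have e0 : ∀ k : ℤ, algebraMap (𝓞 K) K (k : 𝓞 K) = (k : K) :=
        fun k => map_intCast (algebraMap (𝓞 K) K) k
      apply FaithfulSMul.algebraMap_injective (𝓞 K) K
      rw [map_sum, map_zero]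
      have h5 : (F.leadingCoeff : K) ^ F.natDegree * aeval θ F = 0 := by rw [hθ, mul_zero]
      rw [← h5, aeval_eq_sum_range, Finset.mul_sum]
      refine Finset.sum_congr rfl fun i hi => ?_
      rw [Finset.mem_range] at hi
      have e1 : algebraMap (𝓞 K) K (eta F θ hθ) = (F.leadingCoeff : K) * θ := eta_coe F θ hθ
      rw [map_mul, map_mul, map_pow, map_pow, e0, e0, e1, mul_pow, zsmul_eq_mul]
      have : (F.leadingCoeff : K) ^ F.natDegree =
          (F.leadingCoeff : K) ^ (F.natDegree - i) * (F.leadingCoeff : K) ^ i := by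
        rw [← pow_add, Nat.sub_add_cancel (by omega)]
      rw [this]
      ring
    rw [h4, map_zero] at h3
    exact (mul_eq_zero.1 h3.symm).resolve_left (pow_ne_zero _ ha0)
  · have hdeg : (pol u).natDegree ≤ r := by
      rw [natDegree_le_iff_coeff_eq_zero]
      intro i hi
      unfold pol
      rw [finsetSum_coeff]
      refine Finset.sum_eq_zero fun j _ => ?_
      rw [coeff_C_mul, coeff_X_pow, if_neg (by omega), mul_zero]
    have h3 := key r (pol u) hdeg
    have h4 : (∑ i ∈ Finset.range (r + 1), ((pol u).coeff i : 𝓞 K) *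
        ((F.leadingCoeff : 𝓞 K) ^ (r - i) * eta F θ hθ ^ i)) = lam F θ hθ r u := by
      unfold lam ww
      rw [← Fin.sum_univ_eq_sum_range (fun i => ((pol u).coeff i : 𝓞 K) *
        ((F.leadingCoeff : 𝓞 K) ^ (r - i) * eta F θ hθ ^ i)) (r + 1)]
      refine Finset.sum_congr rfl fun i _ => ?_
      rw [pol_coeff]
    rw [h4, hπ0 _ (Ideal.mem_sup_left (Ideal.mem_span_singleton_self _))] at h3
    exact (mul_eq_zero.1 h3.symm).resolve_left (pow_ne_zero _ ha0)

end Pool.Agent.Helper19K9.Ld
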