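import Pool.Agent.W410.AC.HTG
import Pool.Agent.W223.AC.SUMP
import Pool.Agent.W223.AC.NBP

/-!
# Heights of values of integral polynomials; the trivial bound for local heights
-/

set_option autoImplicit false

namespace Pool.Agent.Helper19K9.Ld

open Polynomial IsDedekindDomain NumberField
open Pool.Agent.W125.CV

/-- `h(F(x)) ≤ (deg F) h(x) + O(1)` -/
theorem ht_poly (F : ℤ[X]) : ∃ C : ℝ, 0 ≤ C ∧ ∀ (L : Type) [Field L] [NumberField L] (x : L),
    Real.log (Height.mulHeight₁ (aeval x F)) ≤
      F.natDegree * Real.log (Height.mulHeight₁ x) + Module.finrank ℚ L * C := by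
  classical
  set D := F.natDegree with hD
  set S : ℝ := ∑ j ∈ Finset.range (D + 1), |(F.coeff j : ℝ)| with hS
  have hS0 : 0 ≤ S := Finset.sum_nonneg (fun _ _ => abs_nonneg _)
  set K' : ℝ := 1 + S with hK'
  have hK'1 : 1 ≤ K' := by linarith
  refine ⟨Real.log K', Real.log_nonneg hK'1, ?_⟩
  intro L _ _ x
  set g := aeval x F with hg
  have hg' : g = ∑ j ∈ Finset.range (D + 1), ((F.coeff j : ℤ) : L) * x ^ j := by
    rw [hg, aeval_eq_sum_range]
    refine Finset.sum_congr rfl fun j _ => ?_
    rw [zsmul_eq_mul]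
  have hp0 : ∀ r : ℝ, (0 : ℝ) < max r 1 := fun r => lt_max_of_lt_right one_pos
  have hp1 : ∀ r : ℝ, (1 : ℝ) ≤ max r 1 := fun r => le_max_right _ _
  -- finite places
  have hfin : ∀ v : HeightOneSpectrum (𝓞 L), max (fv v g) 1 ≤ max (fv v x) 1 ^ D := by
    intro v
    have hm := hp1 (fv v x)
    refine max_le ?_ (one_le_pow₀ hm)
    rw [hg']
    refine Pool.Agent.W410.AC.fv_sum_le v _ _ _ (pow_nonneg (hp0 _).le _) (fun j hj => ?_)
    rw [Finset.mem_range] at hj
    rw [map_mul, map_pow]
    calc fv v (F.coeff j : L) * fv v x ^ j ≤ 1 * max (fv v x) 1 ^ j :=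
          mul_le_mul (fv_int v _) (pow_le_pow_left₀ ((fv v).nonneg _) (le_max_left _ _) _)
            (pow_nonneg ((fv v).nonneg _) _) zero_le_one
      _ = max (fv v x) 1 ^ j := one_mul _
      _ ≤ max (fv v x) 1 ^ D := pow_le_pow_right₀ hm (by omega)
  -- infinite places
  have hinf : ∀ w : InfinitePlace L, max (w g) 1 ≤ K' * max (w x) 1 ^ D := by
    intro w
    have hm := hp1 (w x)
    have hpow : 1 ≤ max (w x) 1 ^ D := one_le_pow₀ hm
    have hint : ∀ n : ℤ, w (n : L) = |(n : ℝ)| := by
      intro n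
      rw [← InfinitePlace.norm_embedding_eq w, map_intCast, Complex.norm_intCast]
    refine max_le ?_ (by nlinarith)
    have h3 : w g ≤ S * max (w x) 1 ^ D := by
      rw [hg']
      have h4 : w (∑ j ∈ Finset.range (D + 1), ((F.coeff j : ℤ) : L) * x ^ j) ≤
          ∑ j ∈ Finset.range (D + 1), w (((F.coeff j : ℤ) : L) * x ^ j) :=
        AbsoluteValue.sum_le w.1 _ _
      refine h4.trans ?_
      rw [hS, Finset.sum_mul]
      refine Finset.sum_le_sum (fun j hj => ?_)
      rw [Finset.mem_range] at hj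
      rw [map_mul, map_pow, hint]
      refine mul_le_mul_of_nonneg_left ?_ (abs_nonneg _)
      calc w x ^ j ≤ max (w x) 1 ^ j :=
            pow_le_pow_left₀ (apply_nonneg w _) (le_max_left _ _) _
        _ ≤ max (w x) 1 ^ D := pow_le_pow_right₀ hm (by omega)
    refine h3.trans ?_
    exact mul_le_mul_of_nonneg_right (by linarith) (by positivity)
  -- heights
  set T : Finset (HeightOneSpectrum (𝓞 L)) := (max_support_finite g).toFinset ∪
    (max_support_finite x).toFinset with hT
  have h1 := height_sum g T (fun v hv =>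
    Finset.mem_union_left _ ((Set.Finite.mem_toFinset _).2 hv))
  have h2 := height_sum x T (fun v hv =>
    Finset.mem_union_right _ ((Set.Finite.mem_toFinset _).2 hv))
  have e1 : ∑ v ∈ T, Real.log (max (fv v g) 1) ≤
      (D : ℝ) * ∑ v ∈ T, Real.log (max (fv v x) 1) := by
    rw [Finset.mul_sum]
    refine Finset.sum_le_sum (fun v _ => ?_)
    have := Real.log_le_log (hp0 _) (hfin v)
    rw [Real.log_pow] at this
    exact this
  have e2 : ∑ w : InfinitePlace L, (w.mult : ℝ) * Real.log (max (w g) 1) ≤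
      (D : ℝ) * ∑ w : InfinitePlace L, (w.mult : ℝ) * Real.log (max (w x) 1) +
        Module.finrank ℚ L * Real.log K' := by
    have e3 : (Module.finrank ℚ L : ℝ) = ∑ w : InfinitePlace L, (w.mult : ℝ) := by
      rw [← InfinitePlace.sum_mult_eq]
      exact Nat.cast_sum _ _
    rw [e3, Finset.sum_mul, Finset.mul_sum, ← Finset.sum_add_distrib]
    refine Finset.sum_le_sum (fun w _ => ?_)
    have h3 := Real.log_le_log (hp0 _) (hinf w)
    rw [Real.log_mul (by linarith) (pow_pos (hp0 _) _).ne', Real.log_pow] at h3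
    have h4 : (w.mult : ℝ) * Real.log (max (w g) 1) ≤ (w.mult : ℝ) *
        (Real.log K' + (D : ℝ) * Real.log (max (w x) 1)) :=
      mul_le_mul_of_nonneg_left h3 (Nat.cast_nonneg _)
    linarith
  rw [h1, h2]
  linarith

open Pool.Agent.W223.AC in
/-- the trivial bound for the sum of the local heights -/
theorem lam_trivial {A : Type} [CommRing A] {s : ℕ} (z : Fin (s + 1) → A) (L : Type) [Field L]
    [NumberField L] (φ : A →+* L) (h0 : φ (z 0) ≠ 0) :
    {v : HeightOneSpectrum (𝓞 L) | lamF z φ v ≠ 0}.Finite ∧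
      (∑ᶠ v : HeightOneSpectrum (𝓞 L), lamF z φ v) +
          ∑ w : InfinitePlace L, (w.mult : ℝ) * lamI z φ w ≤
        Real.log (Height.mulHeight₁ (φ (z 0))) := by
  have h := SUMP.t L (φ (z 0)) 1 1 1 (fun v => lamF z φ v) (fun w => lamI z φ w) h0 one_ne_zero le_rfl
    le_rfl (fun v => lamF_nonneg z φ v) ?_ (fun w => lamI_nonneg z φ w) ?_
  · refine ⟨h.1, ?_⟩
    have h2 := h.2
    simp only [Nat.cast_one, one_mul, Real.log_one, add_zero, mul_zero] at h2
    exact h2
  · intro v hv
    have h1 := sup_aux (fun i => fv v (φ (z i))) ((fv v).pos h0) hv 0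
    simp only [Nat.cast_one, map_one, mul_one, one_mul]
    exact h1
  · intro w hw
    have h1 := sup_aux (fun i => w (φ (z i))) (InfinitePlace.pos_iff.2 h0) hw 0
    simp only [Nat.cast_one, one_mul]
    exact h1

end Pool.Agent.Helper19K9.Ld
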