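import Pool.Agent.Helper19K9.Ld.Syn
import Pool.Agent.Helper19K9.Ld.Hp
import Pool.Agent.W223.AC.MasterK
import Pool.Agent.W976.AC.EX
import Pool.Agent.W460.AC.NORM
import Pool.Agent.W193.AC.FINQ
import Pool.Agent.W398.AC.DIM
import Pool.Agent.W131.AC.GROW
import Pool.Agent.W989.AC.MULT
import Pool.Agent.W756.AC.LOCP

/-!
# The sum of the local heights with respect to the zeros of an ideal containing `F(t)`
-/

set_option autoImplicit false

namespace Pool.Agent.Helper19K9.Ld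

open Polynomial IsDedekindDomain NumberField
open Pool.Agent.W125.CV
open Pool.Agent.W223.AC
open Pool.Agent.H58P (Qb ht)

theorem hNBP : StmtNBP := Pool.Agent.W223.AC.nbp (Pool.Agent.W976.AC.EX.t Pool.Agent.W398.AC.DIM.t
      Pool.Agent.W193.AC.FINQ.t Pool.Agent.W989.AC.MULT.t) Pool.Agent.W756.AC.t
      (Pool.Agent.W410.AC.t Pool.Agent.W131.AC.t) Pool.Agent.W223.AC.SUMP.t
      Pool.Agent.W460.AC.t

/-- the height of the roots of a polynomial is bounded -/
theorem ht_roots (G : ℚ[X]) (hG : G ≠ 0) : ∃ C : ℝ, 0 ≤ C ∧ ∀ (L : Type) [Field L] [NumberField L]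
    (y : L), aeval y G = 0 → Real.log (Height.mulHeight₁ y) ≤ Module.finrank ℚ L * C := by
  classical
  set R := (G.map (algebraMap ℚ Qb)).roots.toFinset with hR
  refine ⟨∑ z ∈ R, |ht z|, Finset.sum_nonneg fun z _ => abs_nonneg _, ?_⟩
  intro L _ _ y hy
  let φ : L →+* Qb := ((IsAlgClosed.lift : L →ₐ[ℚ] Qb) : L →+* Qb)
  have h1 := Pool.Agent.W469.CV.MH.ht_emb L φ y
  have hL : (0 : ℝ) < Module.finrank ℚ L := by exact_mod_cast Module.finrank_pos
  have h2 : φ y ∈ R := by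
    rw [hR, Multiset.mem_toFinset, mem_roots', IsRoot.def, eval_map_algebraMap]
    refine ⟨(Polynomial.map_ne_zero_iff (algebraMap ℚ Qb).injective).2 hG, ?_⟩
    have h3 : aeval ((IsAlgClosed.lift : L →ₐ[ℚ] Qb) y) G = (IsAlgClosed.lift : L →ₐ[ℚ] Qb) (aeval y G) :=
      aeval_algHom_apply _ _ _
    rw [hy, map_zero] at h3
    exact h3
  have h3 : ht (φ y) ≤ ∑ z ∈ R, |ht z| :=
    (le_abs_self _).trans (Finset.single_le_sum (f := fun z => |ht z|) (fun z _ => abs_nonneg _) h2)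
  rw [h1, div_le_iff₀ hL] at h3
  linarith

/-- **The sum of the local heights with respect to the zeros of an ideal containing `F(t)`.** -/
theorem lam_le (A : Type) [CommRing A] [IsDedekindDomain A] [Algebra ℚ A] [Algebra ℚ[X] A]
    [IsScalarTower ℚ ℚ[X] A] [Module.Finite ℚ[X] A] [FaithfulSMul ℚ[X] A]
    (F : ℤ[X]) (hF : 1 ≤ F.natDegree) (s : ℕ) (z : Fin (s + 1) → A) (hz : z 0 = psi A F)
    {ε : ℝ} (hε : 0 < ε) : ∃ C : ℝ, 0 ≤ C ∧
      ∀ (L : Type) [Field L] [NumberField L] (φ : A →+* L), φ (z 0) ≠ 0 →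
        {v : HeightOneSpectrum (𝓞 L) | lamF z φ v ≠ 0}.Finite ∧
        (∑ᶠ v : HeightOneSpectrum (𝓞 L), lamF z φ v) +
          ∑ w : InfinitePlace L, (w.mult : ℝ) * lamI z φ w ≤
          ((Module.finrank ℚ (A ⧸ Ideal.span (Set.range z)) : ℝ) / Module.finrank ℚ[X] A + ε) *
            Real.log (Height.mulHeight₁ (φ (tt A))) + Module.finrank ℚ L * C := by
  classical
  set FQ : ℚ[X] := F.map (Int.castRingHom ℚ) with hFQ
  have hdeg : FQ.natDegree = F.natDegree := natDegree_map_eq_of_injective (Int.castRingHom ℚ).injective_int F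
  set n := F.natDegree with hn
  have hn0 : (0 : ℝ) < n := by exact_mod_cast hF
  have hFQ1 : 1 ≤ FQ.natDegree := by rw [hdeg]; exact hF
  have i1 := syn_finite A FQ hFQ1
  have i2 := syn_faithful A FQ hFQ1
  have hzS : z 0 = (tt (Syn A FQ) - algebraMap ℚ[X] (Syn A FQ) (C 0) : Syn A FQ) := by
    rw [map_zero, map_zero, sub_zero, hz, tt, syn_algebraMap, X_comp]
    rfl
  obtain ⟨C₁, G, hC₁, hG, hnb⟩ := hNBP (Syn A FQ) 0 s z hzS (ε / n) (by positivity)
  obtain ⟨C₂, hC₂, hp⟩ := ht_poly F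
  obtain ⟨C₃, hC₃, hr⟩ := ht_roots G hG
  set d := Module.finrank ℚ (A ⧸ Ideal.span (Set.range z)) with hd
  set N := Module.finrank ℚ[X] A with hN
  have hN0 : 0 < N := by
    have : Module.IsTorsionFree ℚ[X] A := by infer_instance
    exact Module.finrank_pos
  have hNR : (0 : ℝ) < N := by exact_mod_cast hN0
  have hrk := syn_rank A FQ hFQ1
  rw [hdeg, ← hN] at hrk
  have hrkR : (n : ℝ) * N ≤ Module.finrank ℚ[X] (Syn A FQ) := by exact_mod_cast hrk
  have hS0 : (0 : ℝ) < Module.finrank ℚ[X] (Syn A FQ) := lt_of_lt_of_le (by positivity) hrkR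
  set κ : ℝ := (d : ℝ) / Module.finrank ℚ[X] (Syn A FQ) + ε / n with hκ
  have hκ0 : 0 ≤ κ := by positivity
  have hκ1 : κ * n ≤ (d : ℝ) / N + ε := by
    rw [hκ, add_mul, div_mul_cancel₀ _ hn0.ne']
    have h1 : (d : ℝ) / Module.finrank ℚ[X] (Syn A FQ) ≤ (d : ℝ) / (n * N) := by
      apply div_le_div_of_nonneg_left (by positivity) (by positivity) hrkR
    have h2 : (d : ℝ) / (n * N) * n = (d : ℝ) / N := by field_simp
    have h3 := mul_le_mul_of_nonneg_right h1 hn0.le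
    linarith
  refine ⟨κ * C₂ + C₁ + C₃, by positivity, ?_⟩
  intro L _ _ φ h0
  have hL0 : (0 : ℝ) < Module.finrank ℚ L := by exact_mod_cast Module.finrank_pos
  obtain ⟨hfin, htriv⟩ := lam_trivial z L φ h0
  refine ⟨hfin, ?_⟩
  have hH0 : 0 ≤ Real.log (Height.mulHeight₁ (φ (tt A))) := by
    rw [← Height.logHeight₁_eq_log_mulHeight₁]
    exact Height.zero_le_logHeight₁ (φ (tt A))
  have hval : φ (z 0) = aeval (φ (tt A)) F := by
    rw [hz]
    have h1 := Pool.Agent.W410.AC.phi_psi φ F F.natDegree le_rfl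
    rw [h1, aeval_eq_sum_range]
    refine Finset.sum_congr rfl fun j _ => ?_
    rw [zsmul_eq_mul]
  have hval2 : φ (tt (Syn A FQ)) = φ (z 0) := by
    rw [hzS, map_zero, map_zero, sub_zero]
  have hHF := hp L (φ (tt A))
  rw [← hval] at hHF
  by_cases hGx : aeval (φ (tt (Syn A FQ))) G = 0
  · have h1 := hr L _ hGx
    rw [hval2] at h1
    have h2 : 0 ≤ ((d : ℝ) / N + ε) * Real.log (Height.mulHeight₁ (φ (tt A))) := by positivity
    have h3 : (0 : ℝ) ≤ Module.finrank ℚ L * (κ * C₂ + C₁) := by positivity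
    nlinarith [htriv]
  · have h1 := (hnb L φ hGx h0).2
    have h2 : Real.log (Height.mulHeight₁ (φ (tt (Syn A FQ)))) ≤
        n * Real.log (Height.mulHeight₁ (φ (tt A))) + Module.finrank ℚ L * C₂ := by
      rw [hval2]
      exact hHF
    have h3 : κ * Real.log (Height.mulHeight₁ (φ (tt (Syn A FQ)))) ≤
        κ * (n * Real.log (Height.mulHeight₁ (φ (tt A))) + Module.finrank ℚ L * C₂) :=
      mul_le_mul_of_nonneg_left h2 hκ0
    have h4 : κ * n * Real.log (Height.mulHeight₁ (φ (tt A))) ≤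
        ((d : ℝ) / N + ε) * Real.log (Height.mulHeight₁ (φ (tt A))) :=
      mul_le_mul_of_nonneg_right hκ1 hH0
    have h5 : (0 : ℝ) ≤ Module.finrank ℚ L * C₃ := by positivity
    have h6 : (∑ᶠ v : HeightOneSpectrum (𝓞 L), lamF z φ v) +
          ∑ w : InfinitePlace L, (w.mult : ℝ) * lamI z φ w ≤
          κ * Real.log (Height.mulHeight₁ (φ (tt (Syn A FQ)))) + Module.finrank ℚ L * C₁ := h1
    nlinarith

end Pool.Agent.Helper19K9.Ld
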