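import Mathlib

/-!
# Integral points of boxes in ideals: a packing bound, and coprime splitting of ideals
-/

set_option autoImplicit false

namespace Pool.Agent.Helper19K9.Ld

open NumberField

variable {K : Type} [Field K] [NumberField K]

/-- coprime splitting of an ideal -/
theorem absNorm_sup (I : Ideal (𝓞 K)) (m s : ℕ) (hI : Ideal.absNorm I = m * s)
    (hms : m.Coprime s) : Ideal.absNorm (I ⊔ Ideal.span {(m : 𝓞 K)}) = m := by
  set J := I ⊔ Ideal.span {(m : 𝓞 K)} with hJ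
  set J' := I ⊔ Ideal.span {(s : 𝓞 K)} with hJ'
  have hcop : Ideal.span {(m : 𝓞 K)} ⊔ Ideal.span {(s : 𝓞 K)} = ⊤ := by
    rw [← Ideal.isCoprime_iff_sup_eq, Ideal.isCoprime_span_singleton_iff]
    exact Nat.Coprime.cast hms
  have hmul : Ideal.span {(m : 𝓞 K)} * Ideal.span {(s : 𝓞 K)} ≤ I := by
    rw [Ideal.span_singleton_mul_span_singleton, Ideal.span_singleton_le_iff_mem]
    have h := Ideal.absNorm_mem I
    rw [hI] at h
    push_cast at h
    exact h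
  have hJJ : J * J' = I := by
    apply le_antisymm
    · rw [hJ, hJ', Ideal.sup_mul, Ideal.mul_sup, Ideal.mul_sup]
      refine sup_le (sup_le (Ideal.mul_le_right (I := I) (J := I)) ?_) (sup_le ?_ hmul)
      · exact Ideal.mul_le_left (I := I) (J := Ideal.span {(s : 𝓞 K)})
      · exact Ideal.mul_le_right (I := Ideal.span {(m : 𝓞 K)}) (J := I)
    · calc I = I * (Ideal.span {(m : 𝓞 K)} ⊔ Ideal.span {(s : 𝓞 K)}) := by
            rw [hcop, Ideal.mul_top]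
        _ = I * Ideal.span {(m : 𝓞 K)} ⊔ I * Ideal.span {(s : 𝓞 K)} := Ideal.mul_sup _ _ _
        _ ≤ J * J' := by
            refine sup_le ?_ ?_
            · rw [mul_comm]
              exact Ideal.mul_mono le_sup_right le_sup_left
            · exact Ideal.mul_mono le_sup_left le_sup_right
  have hprod : Ideal.absNorm J * Ideal.absNorm J' = m * s := by
    rw [← map_mul, hJJ, hI]
  have h1 : Ideal.absNorm J ∣ m ^ Module.finrank ℤ (𝓞 K) := by
    have h := Ideal.absNorm_dvd_absNorm_of_le (le_sup_right : Ideal.span {(m : 𝓞 K)} ≤ J)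
    rwa [Ideal.absNorm_span_natCast] at h
  have h2 : Ideal.absNorm J' ∣ s ^ Module.finrank ℤ (𝓞 K) := by
    have h := Ideal.absNorm_dvd_absNorm_of_le (le_sup_right : Ideal.span {(s : 𝓞 K)} ≤ J')
    rwa [Ideal.absNorm_span_natCast] at h
  have h3 : (Ideal.absNorm J).Coprime s :=
    Nat.Coprime.coprime_dvd_left h1 (Nat.Coprime.pow_left _ hms)
  have h4 : m.Coprime (Ideal.absNorm J') :=
    Nat.Coprime.coprime_dvd_right h2 (Nat.Coprime.pow_right _ hms)
  apply Nat.dvd_antisymm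
  · exact h3.dvd_of_dvd_mul_right (hprod ▸ Dvd.intro _ rfl)
  · exact h4.dvd_of_dvd_mul_right (hprod ▸ Dvd.intro _ rfl)

/-- the norm of a small combination -/
theorem norm_le {N : ℕ} (w : Fin N → 𝓞 K) :
    ∃ C : ℝ, 1 ≤ C ∧ ∀ (v : Fin N → ℤ) (T : ℝ), 0 ≤ T → (∀ i, |(v i : ℝ)| ≤ T) →
      (∀ σ : K →ₐ[ℚ] ℂ, ‖σ ((∑ i, (v i : 𝓞 K) * w i : 𝓞 K) : K)‖ ≤ C * T) ∧
      |(Algebra.norm ℤ (∑ i, (v i : 𝓞 K) * w i) : ℝ)| ≤ (C * T) ^ Module.finrank ℚ K := by
  classical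
  refine ⟨1 + ∑ σ : K →ₐ[ℚ] ℂ, ∑ i, ‖σ (w i : K)‖, ?_, fun v T hT hv => ?_⟩
  · have : 0 ≤ ∑ σ : K →ₐ[ℚ] ℂ, ∑ i, ‖σ (w i : K)‖ := by positivity
    linarith
  · set C := 1 + ∑ σ : K →ₐ[ℚ] ℂ, ∑ i, ‖σ (w i : K)‖ with hC
    have hσ : ∀ σ : K →ₐ[ℚ] ℂ, ‖σ ((∑ i, (v i : 𝓞 K) * w i : 𝓞 K) : K)‖ ≤ C * T := by
      intro σ
      have e : ((∑ i, (v i : 𝓞 K) * w i : 𝓞 K) : K) = ∑ i, (v i : K) * (w i : K) := by
        push_cast
        rfl
      rw [e, map_sum]
      refine (norm_sum_le _ _).trans ?_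
      calc ∑ i, ‖σ ((v i : K) * (w i : K))‖ ≤ ∑ i, T * ‖σ (w i : K)‖ := by
            refine Finset.sum_le_sum fun i _ => ?_
            rw [map_mul, norm_mul]
            refine mul_le_mul_of_nonneg_right ?_ (norm_nonneg _)
            rw [map_intCast, Complex.norm_intCast]
            exact hv i
        _ = T * ∑ i, ‖σ (w i : K)‖ := by rw [Finset.mul_sum]
        _ ≤ T * C := by
            refine mul_le_mul_of_nonneg_left ?_ hT
            have h1 : ∑ i, ‖σ (w i : K)‖ ≤ ∑ σ : K →ₐ[ℚ] ℂ, ∑ i, ‖σ (w i : K)‖ :=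
              Finset.single_le_sum (f := fun σ : K →ₐ[ℚ] ℂ => ∑ i, ‖σ (w i : K)‖)
                (fun σ _ => by positivity) (Finset.mem_univ σ)
            linarith
        _ = C * T := mul_comm _ _
    refine ⟨hσ, ?_⟩
    set z := ∑ i, (v i : 𝓞 K) * w i with hz
    have h1 : (algebraMap ℚ ℂ) (Algebra.norm ℚ (z : K)) = ∏ σ : K →ₐ[ℚ] ℂ, σ (z : K) :=
      Algebra.norm_eq_prod_embeddings ℚ ℂ (z : K)
    have h2 : ((Algebra.norm ℤ z : ℤ) : ℚ) = Algebra.norm ℚ (z : K) := Algebra.coe_norm_int z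
    have h3 : |(Algebra.norm ℤ z : ℝ)| = ∏ σ : K →ₐ[ℚ] ℂ, ‖σ (z : K)‖ := by
      rw [← norm_prod, ← h1, ← h2]
      simp
    rw [h3]
    calc ∏ σ : K →ₐ[ℚ] ℂ, ‖σ (z : K)‖ ≤ ∏ _σ : K →ₐ[ℚ] ℂ, (C * T) :=
          Finset.prod_le_prod (fun σ _ => norm_nonneg _) (fun σ _ => hσ σ)
      _ = (C * T) ^ Module.finrank ℚ K := by
          rw [Finset.prod_const, Finset.card_univ, AlgHom.card ℚ K ℂ]

theorem natAbs_norm {z : 𝓞 K} : (Algebra.norm ℤ z).natAbs = Ideal.absNorm (Ideal.span {z}) :=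
  (Ideal.absNorm_span_singleton z).symm

theorem absNorm_le_norm {I : Ideal (𝓞 K)} {z : 𝓞 K} (hz : z ∈ I) (h0 : z ≠ 0) :
    (Ideal.absNorm I : ℝ) ≤ |(Algebra.norm ℤ z : ℝ)| := by
  have h1 : Ideal.absNorm I ∣ (Algebra.norm ℤ z).natAbs := by
    rw [natAbs_norm]
    exact Ideal.absNorm_dvd_absNorm_of_le ((Ideal.span_singleton_le_iff_mem I).2 hz)
  have h2 : (Algebra.norm ℤ z).natAbs ≠ 0 := by
    rw [natAbs_norm, Ne, Ideal.absNorm_eq_zero_iff, Ideal.span_singleton_eq_bot]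
    exact h0
  have h3 := Nat.le_of_dvd (Nat.pos_of_ne_zero h2) h1
  have h4 : ((Algebra.norm ℤ z).natAbs : ℝ) = |(Algebra.norm ℤ z : ℝ)| := by
    rw [Nat.cast_natAbs, Int.cast_abs]
  rw [← h4]
  exact_mod_cast h3

theorem div_close {a b : ℤ} {ρ : ℕ} (hρ : 1 ≤ ρ) (h : a / ρ = b / ρ) : |a - b| ≤ (ρ : ℤ) - 1 := by
  have hρ' : (0 : ℤ) < ρ := by exact_mod_cast hρ
  have h1 := Int.emod_add_mul_ediv a ρ
  have h2 := Int.emod_add_mul_ediv b ρ
  have h3 := Int.emod_nonneg a hρ'.ne'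
  have h4 := Int.emod_lt_of_pos a hρ'
  have h5 := Int.emod_nonneg b hρ'.ne'
  have h6 := Int.emod_lt_of_pos b hρ'
  rw [h] at h1
  rw [abs_le]
  constructor <;> linarith

theorem div_mem {a : ℤ} {B ρ : ℕ} (hρ : 1 ≤ ρ) (ha : |a| ≤ B) :
    a / (ρ : ℤ) ∈ Finset.Icc (-((B / ρ : ℕ) : ℤ) - 1) ((B / ρ : ℕ) : ℤ) := by
  have hρ' : (0 : ℤ) < ρ := by exact_mod_cast hρ
  rw [abs_le] at ha
  rw [Finset.mem_Icc]
  constructor
  · rw [Int.le_ediv_iff_mul_le hρ']
    have h1 : (B : ℤ) < (((B / ρ : ℕ) : ℤ) + 1) * ρ := by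
      have := Nat.lt_div_mul_add (a := B) (b := ρ) hρ
      have h2 : B < (B / ρ + 1) * ρ := by
        rw [add_mul, one_mul]; exact this
      exact_mod_cast h2
    nlinarith [ha.1]
  · push_cast
    exact Int.ediv_le_ediv hρ' ha.2

/-- **Packing**: integral points of boxes in ideals. -/
theorem pack {N m : ℕ} (hmN : m ≤ N) (w : Fin N → 𝓞 K)
    (hind : ∀ v : Fin N → ℤ, (∀ i : Fin N, m ≤ (i : ℕ) → v i = 0) →
      ∑ i, (v i : 𝓞 K) * w i = 0 → v = 0) :
    ∃ C : ℝ, 1 ≤ C ∧ ∀ B : ℕ, 1 ≤ B → ∀ I : Ideal (𝓞 K), I ≠ ⊥ → ∀ E : Finset (Fin N → ℤ),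
      (∀ u ∈ E, (∀ i, |u i| ≤ B) ∧ ∑ i, (u i : 𝓞 K) * w i ≠ 0 ∧ ∑ i, (u i : 𝓞 K) * w i ∈ I) →
      (E.card : ℝ) ≤ C * (B : ℝ) ^ N /
        (Ideal.absNorm I : ℝ) ^ ((m : ℝ) / Module.finrank ℚ K) := by
  classical
  obtain ⟨C, hC1, hC⟩ := norm_le w
  have hC0 : 0 < C := by linarith
  refine ⟨4 ^ N * C ^ m, ?_, ?_⟩
  · have h1 : (1 : ℝ) ≤ 4 ^ N := one_le_pow₀ (by norm_num)
    have h2 : (1 : ℝ) ≤ C ^ m := one_le_pow₀ hC1
    nlinarith
  intro B hB I hI E hE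
  have hB1 : (1 : ℝ) ≤ B := by exact_mod_cast hB
  rcases E.eq_empty_or_nonempty with hE0 | ⟨u₀, hu₀⟩
  · rw [hE0, Finset.card_empty]
    push_cast
    positivity
  set n := Module.finrank ℚ K with hn
  have hn0 : n ≠ 0 := Module.finrank_pos.ne'
  have hnR : (0 : ℝ) < n := by exact_mod_cast Nat.pos_of_ne_zero hn0
  have hA : 0 < (Ideal.absNorm I : ℝ) := by
    have : Ideal.absNorm I ≠ 0 := by rwa [Ne, Ideal.absNorm_eq_zero_iff]
    exact_mod_cast Nat.pos_of_ne_zero this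
  set A := (Ideal.absNorm I : ℝ) with hAdef
  set R := A ^ ((1 : ℝ) / n) / C with hR
  have hRpos : 0 < R := by positivity
  have hCR : (C * R) ^ n = A := by
    rw [hR, mul_div_cancel₀ _ hC0.ne', ← Real.rpow_natCast, ← Real.rpow_mul hA.le, one_div,
      inv_mul_cancel₀ hnR.ne', Real.rpow_one]
  -- the upper bound for `R`
  have hRB : R ≤ B := by
    obtain ⟨h1, h2, h3⟩ := hE u₀ hu₀
    have h4 := absNorm_le_norm h3 h2
    have h5 := (hC u₀ B (by positivity) (fun i => by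
      have := h1 i
      exact_mod_cast this)).2
    have h6 : (C * R) ^ n ≤ (C * B) ^ n := by
      rw [hCR]
      exact h4.trans h5
    have h7 := le_of_pow_le_pow_left₀ hn0 (by positivity) h6
    exact le_of_mul_le_mul_left h7 hC0
  set ρ := ⌈R⌉₊ with hρ
  have hρ1 : 1 ≤ ρ := Nat.one_le_iff_ne_zero.2 (Nat.ceil_pos.2 hRpos).ne'
  have hρR : R ≤ ρ := Nat.le_ceil R
  have hρR2 : (ρ : ℝ) - 1 < R := by
    have := Nat.ceil_lt_add_one hRpos.le
    linarith
  have hρB : ρ ≤ B := Nat.ceil_le.2 hRB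
  let ρf : Fin N → ℕ := fun i => if (i : ℕ) < m then ρ else 1
  have hρf1 : ∀ i, 1 ≤ ρf i := by
    intro i
    show 1 ≤ if (i : ℕ) < m then ρ else 1
    split_ifs <;> omega
  have hρfB : ∀ i, ρf i ≤ B := by
    intro i
    show (if (i : ℕ) < m then ρ else 1) ≤ B
    split_ifs <;> omega
  let g : (Fin N → ℤ) → (Fin N → ℤ) := fun u i => u i / (ρf i : ℤ)
  have hinj : Set.InjOn g E := by
    intro u hu u' hu' hgg
    rw [Finset.mem_coe] at hu hu'
    by_contra hne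
    have hcl : ∀ i, |u i - u' i| ≤ (ρf i : ℤ) - 1 := fun i => div_close (hρf1 i) (congrFun hgg i)
    set v : Fin N → ℤ := fun i => u i - u' i with hv
    have hv0 : ∀ i : Fin N, m ≤ (i : ℕ) → v i = 0 := by
      intro i hi
      have h1 := hcl i
      have h2 : ρf i = 1 := by
        show (if (i : ℕ) < m then ρ else 1) = 1
        rw [if_neg (by omega)]
      rw [h2] at h1
      push_cast at h1
      have h3 : |u i - u' i| ≤ 0 := by linarith
      exact abs_nonpos_iff.1 h3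
    have hvs : ∑ i, (v i : 𝓞 K) * w i = ∑ i, (u i : 𝓞 K) * w i - ∑ i, (u' i : 𝓞 K) * w i := by
      rw [← Finset.sum_sub_distrib]
      refine Finset.sum_congr rfl fun i _ => ?_
      rw [hv]
      push_cast
      ring
    have hvI : ∑ i, (v i : 𝓞 K) * w i ∈ I := by
      rw [hvs]
      exact I.sub_mem (hE u hu).2.2 (hE u' hu').2.2
    have hvne : ∑ i, (v i : 𝓞 K) * w i ≠ 0 := by
      intro h
      apply hne
      have h1 := hind v hv0 h
      funext i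
      have h2 := congrFun h1 i
      have h3 : u i - u' i = 0 := h2
      linarith
    have h4 := absNorm_le_norm hvI hvne
    have hT0 : (0 : ℝ) ≤ (ρ : ℝ) - 1 := by
      have : (1 : ℝ) ≤ ρ := by exact_mod_cast hρ1
      linarith
    have h5 := (hC v ((ρ : ℝ) - 1) hT0 (fun i => by
      have h6 := hcl i
      have h7 : ((ρf i : ℤ) : ℝ) ≤ ρ := by
        have : ρf i ≤ ρ := by
          show (if (i : ℕ) < m then ρ else 1) ≤ ρ
          split_ifs <;> omega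
        exact_mod_cast this
      have h8 : ((|u i - u' i| : ℤ) : ℝ) ≤ (((ρf i : ℤ) - 1 : ℤ) : ℝ) := by exact_mod_cast h6
      have h9 : |(v i : ℝ)| = ((|u i - u' i| : ℤ) : ℝ) := by
        rw [Int.cast_abs]
      rw [h9]
      push_cast at h8 ⊢
      push_cast at h7
      linarith)).2
    have h6 : (C * ((ρ : ℝ) - 1)) ^ n < (C * R) ^ n :=
      pow_lt_pow_left₀ (mul_lt_mul_of_pos_left hρR2 hC0) (by positivity) hn0
    rw [hCR] at h6
    linarith
  have hmaps : Set.MapsTo g E (Fintype.piFinset fun i =>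
      Finset.Icc (-((B / ρf i : ℕ) : ℤ) - 1) ((B / ρf i : ℕ) : ℤ)) := by
    intro u hu
    rw [Finset.mem_coe] at hu ⊢
    rw [Fintype.mem_piFinset]
    intro i
    exact div_mem (hρf1 i) ((hE u hu).1 i)
  have hcard := Finset.card_le_card_of_injOn g hmaps hinj
  rw [Fintype.card_piFinset] at hcard
  have h1 : (E.card : ℝ) ≤ ∏ i : Fin N, (4 * B / ρf i : ℝ) := by
    calc (E.card : ℝ) ≤ ((∏ i : Fin N, (Finset.Icc (-((B / ρf i : ℕ) : ℤ) - 1)
            ((B / ρf i : ℕ) : ℤ)).card : ℕ) : ℝ) := by exact_mod_cast hcard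
      _ = ∏ i : Fin N, ((Finset.Icc (-((B / ρf i : ℕ) : ℤ) - 1)
            ((B / ρf i : ℕ) : ℤ)).card : ℝ) := by push_cast; rfl
      _ ≤ ∏ i : Fin N, (4 * B / ρf i : ℝ) := by
          refine Finset.prod_le_prod (fun i _ => by positivity) fun i _ => ?_
          rw [Int.card_Icc]
          have e : (((B / ρf i : ℕ) : ℤ) + 1 - (-((B / ρf i : ℕ) : ℤ) - 1)).toNat =
              2 * (B / ρf i) + 2 := by omega
          rw [e]
          have h2 : ((B / ρf i : ℕ) : ℝ) ≤ (B : ℝ) / ρf i := Nat.cast_div_le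
          have h3 : (1 : ℝ) ≤ (B : ℝ) / ρf i := by
            rw [le_div_iff₀ (by exact_mod_cast hρf1 i), one_mul]
            exact_mod_cast hρfB i
          push_cast
          rw [mul_div_assoc]
          linarith
  refine h1.trans ?_
  rw [Finset.prod_div_distrib, Finset.prod_const, Finset.card_univ, Fintype.card_fin, mul_pow]
  have h2 : (∏ i : Fin N, (ρf i : ℝ)) = (ρ : ℝ) ^ m := by
    have e : ∀ i : Fin N, (ρf i : ℝ) = if (i : ℕ) < m then (ρ : ℝ) else 1 := by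
      intro i
      show ((if (i : ℕ) < m then ρ else 1 : ℕ) : ℝ) = _
      split_ifs <;> simp
    rw [Finset.prod_congr rfl fun i _ => e i, Finset.prod_ite, Finset.prod_const,
      Finset.prod_const_one, mul_one, Fin.card_filter_val_lt, min_eq_right hmN]
  rw [h2]
  have h3 : A ^ ((m : ℝ) / n) ≤ (C * ρ) ^ m := by
    have e : A ^ ((m : ℝ) / n) = (C * R) ^ m := by
      rw [hR, mul_div_cancel₀ _ hC0.ne', ← Real.rpow_natCast, ← Real.rpow_mul hA.le]
      congr 1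
      ring
    rw [e]
    exact pow_le_pow_left₀ (by positivity) (mul_le_mul_of_nonneg_left hρR hC0.le) _
  rw [mul_pow] at h3
  have hρ0 : (0 : ℝ) < ρ := by exact_mod_cast hρ1
  rw [div_le_div_iff₀ (by positivity) (by positivity)]
  calc (4 : ℝ) ^ N * B ^ N * A ^ ((m : ℝ) / n) ≤ 4 ^ N * B ^ N * (C ^ m * ρ ^ m) :=
        mul_le_mul_of_nonneg_left h3 (by positivity)
    _ = 4 ^ N * C ^ m * B ^ N * ρ ^ m := by ring

end Pool.Agent.Helper19K9.Ld
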