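import Pool.Agent.Helper19K9.Ld.Pk
import Pool.Agent.W585.VD.NF
import Pool.Agent.H813R3.Voj.Rad

/-!
# Small combinations whose norm has a large powerful part
-/

set_option autoImplicit false

namespace Pool.Agent.Helper19K9.Ld

open NumberField
open Pool.Agent.H813R3.Voj (rho sum_inv_rho)

/-- `m` is powerful outside `S` -/
def PwS (S : Finset ℕ) (m : ℕ) : Prop :=
  m ≠ 0 ∧ ∀ p : ℕ, p.Prime → p ∣ m → p ∉ S → p ^ 2 ∣ m

theorem rho_sq_le {S : Finset ℕ} {m : ℕ} (h : PwS S m) : rho S (m : ℤ) ^ 2 ≤ m := by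
  classical
  have h1 : ∏ p ∈ m.primeFactors, p ^ m.factorization p = m :=
    Nat.prod_factorization_pow_eq_self h.1
  unfold rho
  rw [Int.natAbs_natCast, ← Finset.prod_pow]
  calc ∏ p ∈ m.primeFactors \ S, p ^ 2 ≤ ∏ p ∈ m.primeFactors \ S, p ^ m.factorization p := by
        refine Finset.prod_le_prod' fun p hp => ?_
        rw [Finset.mem_sdiff] at hp
        have hp' := Nat.mem_primeFactors.1 hp.1
        refine Nat.pow_le_pow_right hp'.1.pos ?_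
        exact (hp'.1.pow_dvd_iff_le_factorization h.1).1 (h.2 p hp'.1 hp'.2.1 hp.2)
    _ ≤ ∏ p ∈ m.primeFactors, p ^ m.factorization p := by
        refine Finset.prod_le_prod_of_subset_of_one_le' Finset.sdiff_subset fun p hp _ => ?_
        exact Nat.one_le_pow _ _ (Nat.mem_primeFactors.1 hp).1.pos
    _ = m := h1

theorem rho_pos (S : Finset ℕ) (n : ℤ) : 0 < rho S n := by
  unfold rho
  refine Finset.prod_pos fun p hp => ?_
  rw [Finset.mem_sdiff] at hp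
  exact (Nat.mem_primeFactors.1 hp.1).1.pos

/-- the sum of `m ^ (-s)` over powerful numbers -/
theorem sum_pwS (S : Finset ℕ) {s : ℝ} (hs : 1 / 2 ≤ s) {δ : ℝ} (hδ : 0 < δ) :
    ∃ C : ℝ, 0 < C ∧ ∀ N : ℕ, 1 ≤ N → ∀ M : ℝ, 0 < M → ∀ T : Finset ℕ,
      (∀ m ∈ T, PwS S m ∧ M ≤ m ∧ m ≤ N) →
      ∑ m ∈ T, (m : ℝ) ^ (-s) ≤ C * (N : ℝ) ^ δ * M ^ (-(s - 1 / 2)) := by
  obtain ⟨C, hC, h⟩ := sum_inv_rho S hδ
  refine ⟨C, hC, fun N hN M hM T hT => ?_⟩
  have key : ∀ m ∈ T, (m : ℝ) ^ (-s) ≤ M ^ (-(s - 1 / 2)) * (1 / rho S (m : ℤ)) := by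
    intro m hm
    obtain ⟨h1, h2, h3⟩ := hT m hm
    have hm0 : (0 : ℝ) < m := by exact_mod_cast Nat.pos_of_ne_zero h1.1
    have hr : (0 : ℝ) < rho S (m : ℤ) := by exact_mod_cast rho_pos S m
    have h4 : (rho S (m : ℤ) : ℝ) ≤ (m : ℝ) ^ (1 / 2 : ℝ) := by
      rw [← Real.sqrt_eq_rpow]
      refine Real.le_sqrt_of_sq_le ?_
      exact_mod_cast rho_sq_le h1
    have h5 : (m : ℝ) ^ (-s) = (m : ℝ) ^ (-(s - 1 / 2)) * (m : ℝ) ^ (-(1 / 2) : ℝ) := by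
      rw [← Real.rpow_add hm0]
      congr 1
      ring
    rw [h5]
    refine mul_le_mul ?_ ?_ (by positivity) (by positivity)
    · exact Real.rpow_le_rpow_of_nonpos hM h2 (by linarith)
    · rw [Real.rpow_neg hm0.le, ← one_div]
      exact one_div_le_one_div_of_le hr h4
  refine (Finset.sum_le_sum key).trans ?_
  rw [← Finset.mul_sum]
  have h1 : ∑ m ∈ T, (1 : ℝ) / rho S (m : ℤ) ≤ C * (N : ℝ) ^ δ := by
    refine le_trans ?_ (h N hN)
    refine Finset.sum_le_sum_of_subset_of_nonneg ?_ fun _ _ _ => by positivity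
    intro m hm
    obtain ⟨h1, h2, h3⟩ := hT m hm
    rw [Finset.mem_Icc]
    exact ⟨Nat.pos_of_ne_zero h1.1, h3⟩
  calc M ^ (-(s - 1 / 2)) * ∑ m ∈ T, (1 : ℝ) / rho S (m : ℤ) ≤
        M ^ (-(s - 1 / 2)) * (C * (N : ℝ) ^ δ) := mul_le_mul_of_nonneg_left h1 (by positivity)
    _ = _ := by ring

variable {K : Type} [Field K] [NumberField K]

open UniqueFactorizationMonoid in
open Classical in
/-- the number of ideals of given norm -/
theorem ideals_card (K : Type) [Field K] [NumberField K] {ε : ℝ} (hε : 0 < ε) :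
    ∃ C : ℝ, 0 < C ∧ ∀ m : ℕ, m ≠ 0 →
      ∀ F : Finset (Ideal (𝓞 K)), (∀ I ∈ F, Ideal.absNorm I = m) → (F.card : ℝ) ≤ C * (m : ℝ) ^ ε := by
  set n := Module.finrank ℚ K with hn
  have hn0 : (0 : ℝ) < n := by exact_mod_cast Module.finrank_pos
  obtain ⟨e, he⟩ : ∃ e : ℝ, e = ε / n := ⟨_, rfl⟩
  have he0 : 0 < e := by rw [he]; positivity
  have hl2 : 0 < Real.log 2 := Real.log_pos (by norm_num)
  obtain ⟨A, hA⟩ : ∃ A : ℝ, A = max 1 (1 / (e * Real.log 2)) := ⟨_, rfl⟩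
  have hA1 : 1 ≤ A := by rw [hA]; exact le_max_left _ _
  have hA2 : 1 ≤ A * (e * Real.log 2) := by
    have h1 : 1 / (e * Real.log 2) ≤ A := by rw [hA]; exact le_max_right _ _
    rwa [div_le_iff₀ (by positivity)] at h1
  obtain ⟨R, hR⟩ : ∃ R : ℕ, R = ⌈(2 : ℝ) ^ (1 / e)⌉₊ := ⟨_, rfl⟩
  have hR2 : (2 : ℝ) ≤ (R : ℝ) ^ e := by
    have h1 : (2 : ℝ) ^ (1 / e) ≤ R := by rw [hR]; exact Nat.le_ceil _
    calc (2 : ℝ) = ((2 : ℝ) ^ (1 / e)) ^ e := by
          rw [← Real.rpow_mul (by norm_num), one_div, inv_mul_cancel₀ he0.ne', Real.rpow_one]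
      _ ≤ (R : ℝ) ^ e := Real.rpow_le_rpow (by positivity) h1 he0.le
  obtain ⟨t, ht⟩ : ∃ t : ℕ, R.factorial ^ n < 2 ^ t := ⟨_, Nat.lt_two_pow_self⟩
  refine ⟨A ^ t, by positivity, fun m hm F hF => ?_⟩
  have hJ : Ideal.span {(m : 𝓞 K)} ≠ ⊥ := Pool.Agent.W585.VD.span_nat_ne hm
  have h1 := Pool.Agent.W585.VD.divisors_bound e A he0 R t hA1 hA2 hR2
    (Ideal.span {(m : 𝓞 K)}) hJ ht
  rw [Ideal.absNorm_span_natCast, RingOfIntegers.rank, ← hn] at h1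
  have h2 : (((m ^ n : ℕ) : ℝ)) ^ e = (m : ℝ) ^ ε := by
    push_cast
    rw [← Real.rpow_natCast, ← Real.rpow_mul (by positivity), he]
    congr 1
    field_simp
  rw [h2] at h1
  refine le_trans ?_ h1
  have h3 : F.card ≤ (Finset.Iic (normalizedFactors (Ideal.span {(m : 𝓞 K)}))).card := by
    refine Finset.card_le_card_of_injOn (fun I => normalizedFactors I) ?_ ?_
    · intro I hI
      rw [Finset.mem_coe] at hI ⊢
      rw [Finset.mem_Iic]
      have hI0 : I ≠ 0 := by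
        intro h
        have h4 := hF I hI
        rw [h] at h4
        simp at h4
        exact hm h4.symm
      rw [← dvd_iff_normalizedFactors_le_normalizedFactors hI0 hJ, Ideal.dvd_span_singleton]
      have h5 := Ideal.absNorm_mem I
      rwa [hF I hI] at h5
    · intro I hI I' hI' h
      have hne : ∀ I ∈ F, I ≠ ⊥ := by
        intro I hI h
        have h4 := hF I hI
        rw [h] at h4
        simp at h4
        exact hm h4.symm
      have e1 := Ideal.prod_normalizedFactors_eq_self (hne I hI)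
      have e2 := Ideal.prod_normalizedFactors_eq_self (hne I' hI')
      have h' : normalizedFactors I = normalizedFactors I' := h
      rw [← e1, ← e2, h']
  exact_mod_cast h3

/-- **Small combinations whose norm has a large powerful part.** -/
theorem count_bad {N m : ℕ} (hmN : m ≤ N) (w : Fin N → 𝓞 K)
    (hind : ∀ v : Fin N → ℤ, (∀ i : Fin N, m ≤ (i : ℕ) → v i = 0) →
      ∑ i, (v i : 𝓞 K) * w i = 0 → v = 0)
    (hκ : (1 : ℝ) / 2 < (m : ℝ) / Module.finrank ℚ K) (S : Finset ℕ) {ε : ℝ} (hε : 0 < ε) :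
    ∃ c C : ℝ, 0 < c ∧ 0 < C ∧ ∀ B : ℕ, 1 ≤ B → ∀ E : Finset (Fin N → ℤ),
      (∀ u ∈ E, (∀ i, |u i| ≤ B) ∧ ∑ i, (u i : 𝓞 K) * w i ≠ 0 ∧ ∃ a b : ℕ, PwS S a ∧
        (B : ℝ) ^ ε ≤ a ∧ a.Coprime b ∧
        Ideal.absNorm (Ideal.span {∑ i, (u i : 𝓞 K) * w i}) = a * b) →
      (E.card : ℝ) ≤ C * (B : ℝ) ^ ((N : ℝ) - c) := by
  classical
  obtain ⟨C₁, hC₁, hpack⟩ := pack hmN w hind
  obtain ⟨C₀, hC₀, hnorm⟩ := norm_le w
  set n := Module.finrank ℚ K with hn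
  have hn0 : (0 : ℝ) < n := by exact_mod_cast Module.finrank_pos
  obtain ⟨κ, hκe⟩ : ∃ κ : ℝ, κ = (m : ℝ) / n := ⟨_, rfl⟩
  rw [← hκe] at hκ
  obtain ⟨g, hg⟩ : ∃ g : ℝ, g = κ - 1 / 2 := ⟨_, rfl⟩
  have hg0 : 0 < g := by rw [hg]; linarith
  obtain ⟨C₂, hC₂, hid⟩ := ideals_card K (ε := g / 2) (by positivity)
  obtain ⟨C₃, hC₃, hsum⟩ := sum_pwS S (s := κ - g / 2) (by rw [hg]; linarith)
    (δ := ε * g / (4 * n)) (by positivity)
  have hC₀0 : 0 < C₀ := by linarith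
  have hC₁0 : 0 < C₁ := by linarith
  refine ⟨ε * g / 4, C₁ * C₂ * C₃ * ((2 * C₀) ^ n) ^ (ε * g / (4 * n)), by positivity,
    by positivity, ?_⟩
  intro B hB E hE
  have hB1 : (1 : ℝ) ≤ B := by exact_mod_cast hB
  have hB0 : (0 : ℝ) < B := by linarith
  have hE' : ∀ u : Fin N → ℤ, ∃ a : ℕ, u ∈ E → PwS S a ∧ (B : ℝ) ^ ε ≤ a ∧
      ∃ b : ℕ, a.Coprime b ∧ Ideal.absNorm (Ideal.span {∑ i, (u i : 𝓞 K) * w i}) = a * b := by
    intro u
    by_cases hu : u ∈ E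
    · obtain ⟨-, -, a, b, h1, h2, h3, h4⟩ := hE u hu
      exact ⟨a, fun _ => ⟨h1, h2, b, h3, h4⟩⟩
    · exact ⟨0, fun h => absurd h hu⟩
  choose a ha using hE'
  let J : (Fin N → ℤ) → Ideal (𝓞 K) := fun u =>
    Ideal.span {∑ i, (u i : 𝓞 K) * w i} ⊔ Ideal.span {(a u : 𝓞 K)}
  have hJ : ∀ u ∈ E, Ideal.absNorm (J u) = a u := by
    intro u hu
    obtain ⟨h1, h2, b, h3, h4⟩ := ha u hu
    exact absNorm_sup _ _ _ h4 h3
  -- the bound for `a u`
  obtain ⟨M, hM⟩ : ∃ M : ℕ, M = ⌈(C₀ * B) ^ n⌉₊ := ⟨_, rfl⟩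
  have hM1 : 1 ≤ M := by
    rw [hM, Nat.one_le_ceil_iff]
    positivity
  have haM : ∀ u ∈ E, a u ≤ M := by
    intro u hu
    obtain ⟨h1, h2, b, h3, h4⟩ := ha u hu
    obtain ⟨h5, h6, -⟩ := hE u hu
    have h7 := (hnorm u B hB0.le (fun i => by exact_mod_cast h5 i)).2
    have h8 : (Ideal.absNorm (Ideal.span {∑ i, (u i : 𝓞 K) * w i}) : ℝ) =
        |(Algebra.norm ℤ (∑ i, (u i : 𝓞 K) * w i) : ℝ)| := by
      rw [← natAbs_norm, Nat.cast_natAbs, Int.cast_abs]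
    have h9 : Ideal.absNorm (Ideal.span {∑ i, (u i : 𝓞 K) * w i}) ≠ 0 := by
      rw [Ne, Ideal.absNorm_eq_zero_iff, Ideal.span_singleton_eq_bot]
      exact h6
    have h10 : a u ≤ Ideal.absNorm (Ideal.span {∑ i, (u i : 𝓞 K) * w i}) :=
      Nat.le_of_dvd (Nat.pos_of_ne_zero h9) (h4 ▸ Dvd.intro _ rfl)
    have h11 : (a u : ℝ) ≤ (C₀ * B) ^ n := by
      calc (a u : ℝ) ≤ (Ideal.absNorm (Ideal.span {∑ i, (u i : 𝓞 K) * w i}) : ℝ) := by
            exact_mod_cast h10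
        _ ≤ _ := by rw [h8]; exact h7
    have h12 : (a u : ℝ) ≤ M := by
      rw [hM]
      exact h11.trans (Nat.le_ceil _)
    exact_mod_cast h12
  -- the sum
  have hcard : (E.card : ℝ) = ∑ k ∈ E.image a, ((E.filter fun u => a u = k).card : ℝ) := by
    have := Finset.card_eq_sum_card_image a E
    exact_mod_cast this
  have hk : ∀ k ∈ E.image a, ((E.filter fun u => a u = k).card : ℝ) ≤
      C₁ * C₂ * (B : ℝ) ^ N * (k : ℝ) ^ (-(κ - g / 2)) := by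
    intro k hk
    obtain ⟨u₀, hu₀, hu₀k⟩ := Finset.mem_image.1 hk
    have hk0 : k ≠ 0 := by
      rw [← hu₀k]
      exact (ha u₀ hu₀).1.1
    have hkR : (0 : ℝ) < k := by exact_mod_cast Nat.pos_of_ne_zero hk0
    set Ek := E.filter fun u => a u = k with hEk
    have h1 : (Ek.card : ℝ) = ∑ I ∈ Ek.image J, ((Ek.filter fun u => J u = I).card : ℝ) := by
      have := Finset.card_eq_sum_card_image J Ek
      exact_mod_cast this
    have hnI : ∀ I ∈ Ek.image J, Ideal.absNorm I = k := by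
      intro I hI
      obtain ⟨u, hu, rfl⟩ := Finset.mem_image.1 hI
      rw [hEk, Finset.mem_filter] at hu
      rw [hJ u hu.1, hu.2]
    have h2 : ∀ I ∈ Ek.image J, ((Ek.filter fun u => J u = I).card : ℝ) ≤
        C₁ * (B : ℝ) ^ N / (k : ℝ) ^ κ := by
      intro I hI
      have hI1 := hnI I hI
      have hI0 : I ≠ ⊥ := by
        intro h
        rw [h] at hI1
        simp at hI1
        exact hk0 hI1.symm
      have h3 := hpack B hB I hI0 (Ek.filter fun u => J u = I) (by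
        intro u hu
        rw [Finset.mem_filter, hEk, Finset.mem_filter] at hu
        obtain ⟨⟨hu1, hu2⟩, hu3⟩ := hu
        obtain ⟨h5, h6, -⟩ := hE u hu1
        refine ⟨h5, h6, ?_⟩
        rw [← hu3]
        exact Ideal.mem_sup_left (Ideal.mem_span_singleton_self _))
      rw [hI1, ← hκe] at h3
      exact h3
    have h4 := hid k hk0 (Ek.image J) hnI
    rw [h1]
    calc ∑ I ∈ Ek.image J, ((Ek.filter fun u => J u = I).card : ℝ) ≤
          ∑ _I ∈ Ek.image J, C₁ * (B : ℝ) ^ N / (k : ℝ) ^ κ := Finset.sum_le_sum h2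
      _ = ((Ek.image J).card : ℝ) * (C₁ * (B : ℝ) ^ N / (k : ℝ) ^ κ) := by
          rw [Finset.sum_const, nsmul_eq_mul]
      _ ≤ (C₂ * (k : ℝ) ^ (g / 2)) * (C₁ * (B : ℝ) ^ N / (k : ℝ) ^ κ) :=
          mul_le_mul_of_nonneg_right h4 (by positivity)
      _ = C₁ * C₂ * (B : ℝ) ^ N * (k : ℝ) ^ (-(κ - g / 2)) := by
          rw [neg_sub, Real.rpow_sub hkR]
          ring
  rw [hcard]
  refine (Finset.sum_le_sum hk).trans ?_
  rw [← Finset.mul_sum]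
  have hs := hsum M hM1 ((B : ℝ) ^ ε) (by positivity) (E.image a) (by
    intro k hk
    obtain ⟨u, hu, rfl⟩ := Finset.mem_image.1 hk
    exact ⟨(ha u hu).1, (ha u hu).2.1, haM u hu⟩)
  refine (mul_le_mul_of_nonneg_left hs (by positivity)).trans ?_
  have hM2 : (M : ℝ) ≤ (2 * C₀) ^ n * (B : ℝ) ^ n := by
    have h1 : (1 : ℝ) ≤ (C₀ * B) ^ n := one_le_pow₀ (by nlinarith)
    have h2 : (M : ℝ) < (C₀ * B) ^ n + 1 := by
      rw [hM]
      exact Nat.ceil_lt_add_one (by positivity)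
    have h3 : (2 * C₀) ^ n * (B : ℝ) ^ n = 2 ^ n * (C₀ * B) ^ n := by
      rw [← mul_pow, ← mul_pow]
      ring
    have h4 : (2 : ℝ) ≤ 2 ^ n := by
      calc (2 : ℝ) = 2 ^ 1 := by norm_num
        _ ≤ 2 ^ n := pow_le_pow_right₀ (by norm_num) Module.finrank_pos
    rw [h3]
    nlinarith
  have hM3 : (M : ℝ) ^ (ε * g / (4 * n)) ≤
      ((2 * C₀) ^ n) ^ (ε * g / (4 * n)) * (B : ℝ) ^ (ε * g / 4) := by
    calc (M : ℝ) ^ (ε * g / (4 * n)) ≤ ((2 * C₀) ^ n * (B : ℝ) ^ n) ^ (ε * g / (4 * n)) :=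
          Real.rpow_le_rpow (by positivity) hM2 (by positivity)
      _ = ((2 * C₀) ^ n) ^ (ε * g / (4 * n)) * ((B : ℝ) ^ n) ^ (ε * g / (4 * n)) :=
          Real.mul_rpow (by positivity) (by positivity)
      _ = _ := by
          congr 1
          rw [← Real.rpow_natCast, ← Real.rpow_mul hB0.le]
          congr 1
          field_simp
  have hM4 : ((B : ℝ) ^ ε) ^ (-(κ - g / 2 - 1 / 2)) = (B : ℝ) ^ (-(ε * g / 2)) := by
    rw [← Real.rpow_mul hB0.le]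
    congr 1
    rw [hg]
    ring
  rw [hM4]
  calc C₁ * C₂ * (B : ℝ) ^ N * (C₃ * (M : ℝ) ^ (ε * g / (4 * n)) * (B : ℝ) ^ (-(ε * g / 2))) ≤
        C₁ * C₂ * (B : ℝ) ^ N * (C₃ * (((2 * C₀) ^ n) ^ (ε * g / (4 * n)) *
          (B : ℝ) ^ (ε * g / 4)) * (B : ℝ) ^ (-(ε * g / 2))) := by gcongr
    _ = C₁ * C₂ * C₃ * ((2 * C₀) ^ n) ^ (ε * g / (4 * n)) *
          ((B : ℝ) ^ N * (B : ℝ) ^ (ε * g / 4) * (B : ℝ) ^ (-(ε * g / 2))) := by ring
    _ = _ := by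
        congr 1
        rw [← Real.rpow_natCast, ← Real.rpow_add hB0, ← Real.rpow_add hB0]
        congr 1
        ring

end Pool.Agent.Helper19K9.Ld
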