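import Mathlib

/-!
# Changing the coordinate of a curve: `t ↦ F(t)`
-/

set_option autoImplicit false

namespace Pool.Agent.Helper19K9.Ld

open Polynomial

/-- the ring `A`, with the coordinate `F(t)` instead of `t` -/
def Syn (A : Type) (_F : ℚ[X]) : Type := A

section

variable (A : Type) [CommRing A] [Algebra ℚ A] [Algebra ℚ[X] A] (F : ℚ[X])

instance : CommRing (Syn A F) := inferInstanceAs (CommRing A)

instance [IsDedekindDomain A] : IsDedekindDomain (Syn A F) := inferInstanceAs (IsDedekindDomain A)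

instance : Algebra ℚ (Syn A F) := inferInstanceAs (Algebra ℚ A)

/-- the structure map `p ↦ p(F(t))` -/
noncomputable def synMap : ℚ[X] →+* A := (algebraMap ℚ[X] A).comp (compRingHom F)

noncomputable instance : Algebra ℚ[X] (Syn A F) := (synMap A F).toAlgebra

theorem syn_algebraMap (p : ℚ[X]) : algebraMap ℚ[X] (Syn A F) p = (algebraMap ℚ[X] A (p.comp F) : A) :=
  rfl

instance [IsScalarTower ℚ ℚ[X] A] : IsScalarTower ℚ ℚ[X] (Syn A F) := by
  refine IsScalarTower.of_algebraMap_eq fun q => ?_
  rw [syn_algebraMap]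
  have : (algebraMap ℚ ℚ[X] q).comp F = algebraMap ℚ ℚ[X] q := by
    rw [Polynomial.algebraMap_apply, Algebra.algebraMap_self, RingHom.id_apply, C_comp]
  rw [this]
  exact IsScalarTower.algebraMap_apply ℚ ℚ[X] A q

theorem comp_inj (hF : 1 ≤ F.natDegree) : Function.Injective (compRingHom F) := by
  rw [injective_iff_map_eq_zero]
  intro p hp
  have h1 : p.comp F = 0 := hp
  rcases comp_eq_zero_iff.1 h1 with h | ⟨-, h⟩
  · exact h
  · rw [h, natDegree_C] at hF
    omega

theorem syn_faithful [FaithfulSMul ℚ[X] A] (hF : 1 ≤ F.natDegree) : FaithfulSMul ℚ[X] (Syn A F) := by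
  rw [faithfulSMul_iff_algebraMap_injective]
  intro p q h
  have h1 : algebraMap ℚ[X] A (p.comp F) = algebraMap ℚ[X] A (q.comp F) := h
  exact comp_inj F hF (FaithfulSMul.algebraMap_injective ℚ[X] A h1)

theorem comp_finite (hF : 1 ≤ F.natDegree) : (compRingHom F : ℚ[X] →+* ℚ[X]).Finite := by
  rw [RingHom.finite_iff_isIntegral_and_finiteType]
  -- `X` is integral
  have hX : (compRingHom F : ℚ[X] →+* ℚ[X]).IsIntegralElem X := by
    have ha : F.leadingCoeff ≠ 0 := by
      intro h
      rw [leadingCoeff_eq_zero] at h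
      rw [h, natDegree_zero] at hF
      omega
    -- the polynomial `(F(T) - F(X)) / a`
    refine ⟨C (C F.leadingCoeff⁻¹) * (F.map C - C X), ?_, ?_⟩
    · have h1 : (F.map (C : ℚ →+* ℚ[X]) - C X).leadingCoeff = C F.leadingCoeff := by
        rw [leadingCoeff_sub_of_degree_lt, leadingCoeff_map_of_injective (C_injective)]
        rw [degree_map_eq_of_injective (C_injective)]
        refine degree_C_le.trans_lt ?_
        rw [degree_eq_natDegree (by rintro rfl; simp at ha)]
        exact_mod_cast hF
      show (C (C F.leadingCoeff⁻¹) * (F.map C - C X)).leadingCoeff = 1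
      rw [leadingCoeff_mul, h1, leadingCoeff_C, ← C_mul, inv_mul_cancel₀ ha, C_1]
    · rw [eval₂_mul, eval₂_sub, eval₂_C, eval₂_C]
      have h2 : eval₂ (compRingHom F : ℚ[X] →+* ℚ[X]) X (F.map C) = F := by
        rw [eval₂_map]
        have : (compRingHom F : ℚ[X] →+* ℚ[X]).comp C = C := by
          ext q
          simp
        rw [this, eval₂_C_X]
      rw [h2]
      simp
  constructor
  · intro p
    induction p using Polynomial.induction_on with
    | C a =>
      have : (C a : ℚ[X]) = compRingHom F (C a) := by simp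
      rw [this]
      exact RingHom.isIntegralElem_map _
    | add p q hp hq => exact RingHom.IsIntegralElem.add _ hp hq
    | monomial n a h =>
      rw [pow_succ, ← mul_assoc]
      exact RingHom.IsIntegralElem.mul _ h hX
  · have h1 : ((compRingHom F : ℚ[X] →+* ℚ[X]).comp (C : ℚ →+* ℚ[X])).FiniteType := by
      have h2 : (compRingHom F : ℚ[X] →+* ℚ[X]).comp (C : ℚ →+* ℚ[X]) = algebraMap ℚ ℚ[X] := by
        ext q
        simp
      rw [h2, RingHom.finiteType_algebraMap]
      infer_instance
    exact RingHom.FiniteType.of_comp_finiteType h1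

theorem syn_finite [Module.Finite ℚ[X] A] (hF : 1 ≤ F.natDegree) : Module.Finite ℚ[X] (Syn A F) := by
  have h1 : (algebraMap ℚ[X] A).Finite := RingHom.finite_algebraMap.2 inferInstance
  have h2 : (synMap A F).Finite := RingHom.Finite.comp h1 (comp_finite F hF)
  exact h2

/-- `∑_{i < n} c_i(F) X ^ i = 0` only if all `c_i` are `0`, `n = deg F` -/
theorem comp_indep (hF : 1 ≤ F.natDegree) (c : Fin F.natDegree → ℚ[X])
    (h : ∑ i, (c i).comp F * X ^ (i : ℕ) = 0) : ∀ i, c i = 0 := by
  by_contra hcon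
  push Not at hcon
  obtain ⟨i₀, hi₀⟩ := hcon
  have hne : ∀ i, c i ≠ 0 → (c i).comp F * X ^ (i : ℕ) ≠ 0 := by
    intro i hi
    refine mul_ne_zero ?_ (pow_ne_zero _ X_ne_zero)
    intro h0
    exact hi (comp_inj F hF (by rw [map_zero]; exact h0))
  have hdeg : ∀ i, c i ≠ 0 → ((c i).comp F * X ^ (i : ℕ)).natDegree =
      (c i).natDegree * F.natDegree + i := by
    intro i hi
    have h1 : (c i).comp F ≠ 0 := fun h0 => hi (comp_inj F hF (by rw [map_zero]; exact h0))
    rw [natDegree_mul h1 (pow_ne_zero _ X_ne_zero), natDegree_comp, natDegree_X_pow]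
  have hd := degree_sum_eq_of_disjoint (fun i : Fin F.natDegree => (c i).comp F * X ^ (i : ℕ))
    Finset.univ ?_
  · rw [h, degree_zero] at hd
    have h1 : ((c i₀).comp F * X ^ (i₀ : ℕ)).degree ≤
        Finset.univ.sup fun i : Fin F.natDegree => ((c i).comp F * X ^ (i : ℕ)).degree :=
      Finset.le_sup (f := fun i : Fin F.natDegree => ((c i).comp F * X ^ (i : ℕ)).degree)
        (Finset.mem_univ i₀)
    rw [← hd, le_bot_iff, degree_eq_bot] at h1
    exact hne i₀ hi₀ h1
  · rintro i ⟨-, hi⟩ j ⟨-, hj⟩ hij h1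
    have hi' : c i ≠ 0 := by
      rintro h0
      apply hi
      show (c i).comp F * X ^ (i : ℕ) = 0
      rw [h0, zero_comp, zero_mul]
    have hj' : c j ≠ 0 := by
      rintro h0
      apply hj
      show (c j).comp F * X ^ (j : ℕ) = 0
      rw [h0, zero_comp, zero_mul]
    have h2 : ((c i).comp F * X ^ (i : ℕ)).degree = ((c j).comp F * X ^ (j : ℕ)).degree := h1
    rw [degree_eq_natDegree hi, degree_eq_natDegree hj] at h2
    have h3 : ((c i).comp F * X ^ (i : ℕ)).natDegree = ((c j).comp F * X ^ (j : ℕ)).natDegree := by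
      exact_mod_cast h2
    rw [hdeg i hi', hdeg j hj'] at h3
    apply hij
    have h4 := congrArg (fun k => k % F.natDegree) h3
    simp only [Nat.mul_add_mod_self_right, Nat.mod_eq_of_lt i.2, Nat.mod_eq_of_lt j.2] at h4
    exact Fin.ext h4

/-- the rank over `ℚ[F(t)]` -/
theorem syn_rank [IsDomain A] [Module.Finite ℚ[X] A] [FaithfulSMul ℚ[X] A] (hF : 1 ≤ F.natDegree) :
    F.natDegree * Module.finrank ℚ[X] A ≤ Module.finrank ℚ[X] (Syn A F) := by
  have hfin := syn_finite A F hF
  have hfaith := syn_faithful A F hF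
  obtain ⟨ω, hω⟩ : ∃ ω : Fin (Module.finrank ℚ[X] A) → A, LinearIndependent ℚ[X] ω :=
    exists_linearIndependent_of_le_finrank le_rfl
  let η : Fin F.natDegree × Fin (Module.finrank ℚ[X] A) → Syn A F := fun p =>
    (algebraMap ℚ[X] A (X ^ (p.1 : ℕ)) * ω p.2 : A)
  have hη : LinearIndependent ℚ[X] η := by
    rw [Fintype.linearIndependent_iff]
    intro g hg
    have h1 : ∑ j, (∑ i, (g (i, j)).comp F * X ^ (i : ℕ)) • ω j = 0 := by
      have h2 : ∑ p : Fin F.natDegree × Fin (Module.finrank ℚ[X] A), g p • η p =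
          (∑ j, (∑ i, (g (i, j)).comp F * X ^ (i : ℕ)) • ω j : A) := by
        rw [Fintype.sum_prod_type_right]
        refine Finset.sum_congr rfl fun j _ => ?_
        rw [Finset.sum_smul]
        refine Finset.sum_congr rfl fun i _ => ?_
        rw [Algebra.smul_def, syn_algebraMap, Algebra.smul_def, map_mul, mul_assoc]
        rfl
      rw [← h2]
      exact hg
    rw [Fintype.linearIndependent_iff] at hω
    have h3 := hω _ h1
    rintro ⟨i, j⟩
    exact comp_indep F hF (fun i => g (i, j)) (h3 j) i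
  have := hη.fintype_card_le_finrank
  rwa [Fintype.card_prod, Fintype.card_fin, Fintype.card_fin] at this

end

end Pool.Agent.Helper19K9.Ld
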